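import Mathlib
import Pool.Agent.Y359.PE.Cell

/-!
# Entropy of a sum of two dependent variables: codes and mutual information
-/

set_option autoImplicit false

namespace Pool.Agent.R483.GC

open Finset Pool.Agent.Y359.PE
open scoped Classical

variable {α β γ : Type*}

/-- a code for the pair given the sum bounds the loss of entropy -/
lemma code (G : Finset α) (a b : α → ℕ) (q : ℕ → ℕ → ℝ) (hq0 : ∀ i j, 0 < q i j)
    (hq : ∀ t, ∑ ij ∈ antidiagonal t, q ij.1 ij.2 ≤ 1) :
    h G (fun g => (a g, b g)) + (∑ g ∈ G, Real.log (q (a g) (b g))) / G.card ≤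
      h G (fun g => a g + b g) := by
  have key := h_ge_w G (fun g => a g + b g)
    (fun g => q (a g) (b g) * (1 / (fc G (fun g => (a g, b g)) g : ℝ))) (fun x hx => by
      have h1 := fc_posR (f := fun g => (a g, b g)) hx
      have h2 := hq0 (a x) (b x)
      positivity) (fun x hx => by
      refine le_trans ?_ (hq (a x + b x))
      have hmaps : ∀ y ∈ cl G (fun g => a g + b g) x, (a y, b y) ∈ antidiagonal (a x + b x) := by
        intro y hy
        rw [mem_cl] at hy
        rw [HasAntidiagonal.mem_antidiagonal]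
        exact hy.2
      rw [← sum_fiberwise_of_maps_to hmaps]
      refine sum_le_sum fun ij _ => ?_
      have e1 : ∀ y ∈ (cl G (fun g => a g + b g) x).filter (fun y => (a y, b y) = ij),
          q (a y) (b y) * (1 / (fc G (fun g => (a g, b g)) y : ℝ)) =
          q ij.1 ij.2 * (1 / (fc G (fun g => (a g, b g)) y : ℝ)) := by
        intro y hy
        have h3 := (mem_filter.1 hy).2
        rw [← h3]
      rw [sum_congr rfl e1, ← mul_sum]
      have e2 := sum_inv_le G (fun g => (a g, b g))
        ((cl G (fun g => a g + b g) x).filter (fun y => (a y, b y) = ij))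
        (fun y hy => (mem_cl.1 (mem_filter.1 hy).1).1) (fun y hy z hz =>
          (mem_filter.1 hy).2.trans (mem_filter.1 hz).2.symm)
      have e3 := hq0 ij.1 ij.2
      nlinarith)
  refine le_trans (le_of_eq ?_) key
  unfold h
  rw [← add_div]
  congr 1
  rw [← sum_add_distrib]
  refine sum_congr rfl fun g hg => ?_
  have h1 := fc_posR (f := fun g => (a g, b g)) hg
  have h2 := hq0 (a g) (b g)
  rw [Real.log_mul h2.ne' (by positivity), Real.log_div one_ne_zero h1.ne', Real.log_one]
  ring

/-- the proportion of the elements with a property -/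
noncomputable def fr (G : Finset α) (P : α → Prop) : ℝ := ((G.filter P).card : ℝ) / G.card

lemma fr_eq (G : Finset α) (P : α → Prop) [DecidablePred P] :
    fr G P = ((G.filter P).card : ℝ) / G.card := by
  unfold fr
  congr

lemma fr_pos {G : Finset α} {P : α → Prop} {g : α} (hg : g ∈ G) (h : P g) : 0 < fr G P := by
  unfold fr
  have h1 : 0 < (G.filter P).card := card_pos.2 ⟨g, mem_filter.2 ⟨hg, h⟩⟩
  have h2 : 0 < G.card := card_pos.2 ⟨g, hg⟩
  positivity

/-- the mutual information -/
noncomputable def mi (G : Finset α) (a : α → β) (b : α → γ) : ℝ :=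
  h G a + h G b - h G (fun g => (a g, b g))

lemma sum_prod_ratio (G : Finset α) (a : α → β) (b : α → γ) (Λ : β → γ → ℝ)
    (hΛ : ∀ x y, 0 ≤ Λ x y) :
    ∑ g ∈ G, Λ (a g) (b g) * (fc G a g : ℝ) * (fc G b g : ℝ) / (fc G (fun g => (a g, b g)) g : ℝ) ≤
      ∑ u ∈ G, ∑ v ∈ G, Λ (a u) (b v) := by
  have e1 : ∀ g ∈ G, Λ (a g) (b g) * (fc G a g : ℝ) * (fc G b g : ℝ) /
      (fc G (fun g => (a g, b g)) g : ℝ) = ∑ u ∈ G, ∑ v ∈ G, if a g = a u ∧ b g = b v then
        Λ (a u) (b v) * (1 / (fc G (fun g => (a g, b g)) g : ℝ)) else 0 := by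
    intro g hg
    have e2 : ∀ u ∈ G, (∑ v ∈ G, if a g = a u ∧ b g = b v then
        Λ (a u) (b v) * (1 / (fc G (fun g => (a g, b g)) g : ℝ)) else 0) =
        if a u = a g then (fc G b g : ℝ) * (Λ (a g) (b g) *
          (1 / (fc G (fun g => (a g, b g)) g : ℝ))) else 0 := by
      intro u hu
      split_ifs with hu2
      · have e3 : ∀ v ∈ G, (if a g = a u ∧ b g = b v then
            Λ (a u) (b v) * (1 / (fc G (fun g => (a g, b g)) g : ℝ)) else 0) =
            if b v = b g then Λ (a g) (b g) * (1 / (fc G (fun g => (a g, b g)) g : ℝ)) else 0 := by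
          intro v hv
          by_cases hv2 : b v = b g
          · rw [if_pos ⟨hu2.symm, hv2.symm⟩, if_pos hv2, hu2, hv2]
          · rw [if_neg (fun hh => hv2 hh.2.symm), if_neg hv2]
        rw [sum_congr rfl e3, ← sum_filter, sum_const, nsmul_eq_mul]
        rfl
      · refine sum_eq_zero fun v _ => if_neg ?_
        exact fun hh => hu2 hh.1.symm
    rw [sum_congr rfl e2, ← sum_filter, sum_const, nsmul_eq_mul]
    change _ = (fc G a g : ℝ) * _
    ring
  rw [sum_congr rfl e1, sum_comm]
  refine sum_le_sum fun u hu => ?_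
  rw [sum_comm]
  refine sum_le_sum fun v hv => ?_
  rw [← sum_filter, ← mul_sum]
  have e4 := sum_inv_le G (fun g => (a g, b g)) (G.filter fun g => a g = a u ∧ b g = b v)
    (filter_subset _ _) (fun y hy z hz => by
      have h1 := (mem_filter.1 hy).2
      have h2 := (mem_filter.1 hz).2
      rw [Prod.mk.injEq]
      exact ⟨h1.1.trans h2.1.symm, h1.2.trans h2.2.symm⟩)
  have e5 := hΛ (a u) (b v)
  nlinarith

/-- the mutual information of two variables is at least that of two events -/
lemma mutualInfo (G : Finset α) (hG : G.Nonempty) (a : α → β) (b : α → γ) (U : β → Prop) (V : γ → Prop)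
    (l1 l2 : ℝ) (h1 : 0 < l1) (h2 : 0 < l2) (x y z : ℝ)
    (hx : x = fr G (fun g => U (a g))) (hy : y = fr G (fun g => V (b g)))
    (hz : z = fr G (fun g => U (a g) ∧ V (b g)))
    (hl : x * y * l1 + (1 - x * y) * l2 ≤ 1) :
    z * Real.log l1 + (1 - z) * Real.log l2 ≤ mi G a b := by
  have hN : (0 : ℝ) < G.card := by exact_mod_cast card_pos.2 hG
  rw [fr_eq] at hx hy hz
  set N : ℝ := (G.card : ℝ) with hNd
  let iU : β → ℝ := fun t => if U t then 1 else 0
  let iV : γ → ℝ := fun t => if V t then 1 else 0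
  let Λ : β → γ → ℝ := fun s t => l2 + (l1 - l2) * (iU s * iV t)
  have hΛ : ∀ s t, 0 < Λ s t := by
    intro s t
    simp only [Λ, iU, iV]
    split_ifs <;> linarith
  have hsU : ∑ u ∈ G, iU (a u) = x * N := by
    simp only [iU]
    rw [← sum_filter, sum_const, nsmul_eq_mul, mul_one, hx]
    field_simp
  have hsV : ∑ u ∈ G, iV (b u) = y * N := by
    simp only [iV]
    rw [← sum_filter, sum_const, nsmul_eq_mul, mul_one, hy]
    field_simp
  have hsUV : ∑ u ∈ G, iU (a u) * iV (b u) = z * N := by
    have e : ∀ u ∈ G, iU (a u) * iV (b u) = if U (a u) ∧ V (b u) then 1 else 0 := by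
      intro u _
      simp only [iU, iV]
      split_ifs <;> simp_all
    rw [sum_congr rfl e, ← sum_filter, sum_const, nsmul_eq_mul, mul_one, hz]
    field_simp
  have hsum : ∑ u ∈ G, ∑ v ∈ G, Λ (a u) (b v) ≤ N * N := by
    have e : ∑ u ∈ G, ∑ v ∈ G, Λ (a u) (b v) = N * N * (x * y * l1 + (1 - x * y) * l2) := by
      simp only [Λ]
      have e1 : ∀ u ∈ G, ∑ v ∈ G, (l2 + (l1 - l2) * (iU (a u) * iV (b v))) =
          N * l2 + (l1 - l2) * (iU (a u) * (y * N)) := by
        intro u _
        rw [sum_add_distrib, sum_const, nsmul_eq_mul, ← mul_sum, ← mul_sum, hsV]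
      rw [sum_congr rfl e1, sum_add_distrib, sum_const, nsmul_eq_mul, ← mul_sum, ← sum_mul, hsU]
      ring
    rw [e]
    have : 0 ≤ N * N := by positivity
    nlinarith
  have hr := (sum_prod_ratio G a b Λ (fun s t => (hΛ s t).le)).trans hsum
  -- logarithms
  have hlog : ∀ g ∈ G, Real.log (Λ (a g) (b g)) + Real.log (fc G a g) + Real.log (fc G b g) -
      Real.log (fc G (fun g => (a g, b g)) g) - Real.log N ≤
      Λ (a g) (b g) * (fc G a g : ℝ) * (fc G b g : ℝ) /
        (fc G (fun g => (a g, b g)) g : ℝ) / N - 1 := by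
    intro g hg
    have p1 := fc_posR (f := a) hg
    have p2 := fc_posR (f := b) hg
    have p3 := fc_posR (f := fun g => (a g, b g)) hg
    have p4 := hΛ (a g) (b g)
    have h5 : (0 : ℝ) < Λ (a g) (b g) * (fc G a g : ℝ) * (fc G b g : ℝ) /
        (fc G (fun g => (a g, b g)) g : ℝ) / N := by positivity
    refine le_trans (le_of_eq ?_) (Real.log_le_sub_one_of_pos h5)
    rw [Real.log_div (by positivity) (by positivity), Real.log_div (by positivity) (by positivity),
      Real.log_mul (by positivity) (by positivity), Real.log_mul (by positivity) (by positivity)]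
  have hS' := sum_le_sum hlog
  have hS : ∑ g ∈ G, (Real.log (Λ (a g) (b g)) + Real.log (fc G a g) + Real.log (fc G b g) -
      Real.log (fc G (fun g => (a g, b g)) g) - Real.log N) ≤
      (∑ g ∈ G, Λ (a g) (b g) * (fc G a g : ℝ) * (fc G b g : ℝ) /
        (fc G (fun g => (a g, b g)) g : ℝ)) / N - N := by
    refine hS'.trans (le_of_eq ?_)
    have e : ∑ g ∈ G, (1 : ℝ) = N := by
      rw [sum_const, nsmul_eq_mul, mul_one]
    rw [sum_sub_distrib, ← sum_div, e]
  have hΛlog : ∑ g ∈ G, Real.log (Λ (a g) (b g)) =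
      N * (z * Real.log l1 + (1 - z) * Real.log l2) := by
    have e : ∀ g ∈ G, Real.log (Λ (a g) (b g)) =
        Real.log l2 + (Real.log l1 - Real.log l2) * (iU (a g) * iV (b g)) := by
      intro g _
      simp only [Λ, iU, iV]
      split_ifs <;> simp
    rw [sum_congr rfl e, sum_add_distrib, sum_const, nsmul_eq_mul, ← mul_sum, hsUV]
    ring
  have hmi : mi G a b * N = ∑ g ∈ G, (Real.log N - Real.log (fc G a g) - Real.log (fc G b g) +
      Real.log (fc G (fun g => (a g, b g)) g)) := by
    unfold mi h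
    rw [← hNd, ← add_div, ← sub_div, div_mul_cancel₀ _ hN.ne', ← sum_add_distrib,
      ← sum_sub_distrib]
    refine sum_congr rfl fun g _ => ?_
    ring
  have h6 : N * (z * Real.log l1 + (1 - z) * Real.log l2) - mi G a b * N ≤ 0 := by
    rw [hmi, ← hΛlog, ← sum_sub_distrib]
    have h7 : ∑ g ∈ G, (Real.log (Λ (a g) (b g)) - (Real.log N - Real.log (fc G a g) -
        Real.log (fc G b g) + Real.log (fc G (fun g => (a g, b g)) g))) =
        ∑ g ∈ G, (Real.log (Λ (a g) (b g)) + Real.log (fc G a g) + Real.log (fc G b g) -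
      Real.log (fc G (fun g => (a g, b g)) g) - Real.log N) :=
      sum_congr rfl fun g _ => by ring
    rw [h7]
    refine hS.trans ?_
    have h8 : (∑ g ∈ G, Λ (a g) (b g) * (fc G a g : ℝ) * (fc G b g : ℝ) /
        (fc G (fun g => (a g, b g)) g : ℝ)) / N ≤ N := by
      rw [div_le_iff₀ hN]
      exact hr
    linarith
  nlinarith

lemma mi_nonneg (G : Finset α) (hG : G.Nonempty) (a : α → β) (b : α → γ) : 0 ≤ mi G a b := by
  have := mutualInfo G hG a b (fun _ => False) (fun _ => False) 1 1 one_pos one_pos _ _ _ rfl rfl rfl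
    (by linarith)
  simpa using this

end Pool.Agent.R483.GC
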