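import Mathlib
import Pool.Agent.R483.GC.Info

/-!
# The loss of entropy of a sum: codes for the pair given the sum
-/

set_option autoImplicit false

namespace Pool.Agent.R483.GC

open Finset Pool.Agent.Y359.PE
open scoped Classical

variable {α β γ : Type*}

/-- the mean of the logarithm of `1 + min` -/
noncomputable def mu (G : Finset α) (a b : α → ℕ) : ℝ :=
  (∑ g ∈ G, Real.log (1 + min (a g) (b g) : ℕ)) / G.card

/-- the loss -/
noncomputable def loss (G : Finset α) (a b : α → ℕ) : ℝ :=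
  h G (fun g => (a g, b g)) - h G (fun g => a g + b g)

lemma fr_nonneg (G : Finset α) (P : α → Prop) : 0 ≤ fr G P := by unfold fr; positivity

lemma fr_le_one (G : Finset α) (P : α → Prop) : fr G P ≤ 1 := by
  unfold fr
  refine div_le_one_of_le₀ ?_ (by positivity)
  exact_mod_cast card_filter_le _ _

lemma fr_mono (G : Finset α) {P Q : α → Prop} (h : ∀ g ∈ G, P g → Q g) : fr G P ≤ fr G Q := by
  unfold fr
  refine div_le_div_of_nonneg_right ?_ (by positivity)
  have : G.filter P ⊆ G.filter Q := fun g hg => by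
    rw [mem_filter] at hg ⊢
    exact ⟨hg.1, h g hg.1 hg.2⟩
  exact_mod_cast card_le_card this

lemma fr_or (G : Finset α) (P Q : α → Prop) : fr G (fun g => P g ∨ Q g) ≤ fr G P + fr G Q := by
  unfold fr
  rw [← add_div]
  refine div_le_div_of_nonneg_right ?_ (by positivity)
  have h1 : G.filter (fun g => P g ∨ Q g) ⊆ G.filter P ∪ G.filter Q := by
    intro g hg
    rw [mem_filter] at hg
    rw [mem_union, mem_filter, mem_filter]
    tauto
  have h2 : ((G.filter fun g => P g ∨ Q g).card : ℝ) ≤ (G.filter P).card + (G.filter Q).card := by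
    exact_mod_cast (card_le_card h1).trans (card_union_le _ _)
  refine le_trans (le_of_eq ?_) h2
  congr

lemma avg_ite (G : Finset α) (P : α → Prop) [DecidablePred P] (c : ℝ) :
    (∑ g ∈ G, if P g then c else 0) / G.card = fr G P * c := by
  rw [fr_eq, ← sum_filter, sum_const, nsmul_eq_mul]
  ring

lemma fr_add_not (G : Finset α) (hG : G.Nonempty) (P : α → Prop) :
    fr G P + fr G (fun g => ¬ P g) = 1 := by
  have hN : (0 : ℝ) < G.card := by exact_mod_cast card_pos.2 hG
  unfold fr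
  rw [← add_div, div_eq_one_iff_eq hN.ne']
  have h1 : (G.filter P).card + (G.filter fun g => ¬ P g).card = G.card := by
    convert card_filter_add_card_filter_not (s := G) (p := P)
  have h2 : ((G.filter P).card : ℝ) + (G.filter fun g => ¬ P g).card = G.card := by
    exact_mod_cast h1
  convert h2

lemma mu_nonneg (G : Finset α) (a b : α → ℕ) : 0 ≤ mu G a b := by
  unfold mu
  refine div_nonneg (sum_nonneg fun g _ => Real.log_natCast_nonneg _) (by positivity)

lemma rho_le_mu (G : Finset α) (a b : α → ℕ) :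
    fr G (fun g => 1 ≤ a g ∧ 1 ≤ b g) * Real.log 2 ≤ mu G a b := by
  rw [← avg_ite]
  unfold mu
  refine div_le_div_of_nonneg_right (sum_le_sum fun g _ => ?_) (by positivity)
  split_ifs with h1
  · refine Real.log_le_log (by norm_num) ?_
    have : 2 ≤ 1 + min (a g) (b g) := by
      have : 1 ≤ min (a g) (b g) := le_min h1.1 h1.2
      omega
    exact_mod_cast this
  · exact Real.log_natCast_nonneg _

lemma mu_swap (G : Finset α) (a b : α → ℕ) : mu G b a = mu G a b := by
  unfold mu
  simp only [min_comm]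

lemma loss_swap (G : Finset α) (a b : α → ℕ) : loss G b a = loss G a b := by
  unfold loss
  congr 1
  · refine h_congr fun x _ y _ => ?_
    rw [Prod.mk.injEq, Prod.mk.injEq, and_comm]
  · congr 1
    funext g
    exact add_comm _ _

lemma mi_swap (G : Finset α) (a : α → β) (b : α → γ) : mi G b a = mi G a b := by
  unfold mi
  have : h G (fun g => (b g, a g)) = h G (fun g => (a g, b g)) := by
    refine h_congr fun x _ y _ => ?_
    rw [Prod.mk.injEq, Prod.mk.injEq, and_comm]
  rw [this]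
  ring

/-- the basic code -/
noncomputable def rc (i j : ℕ) : ℝ := (1 / ((i : ℝ) * (i + 1)) + 1 / ((j : ℝ) * (j + 1))) / 2

lemma rc_nonneg (i j : ℕ) : 0 ≤ rc i j := by unfold rc; positivity

lemma rc_pos {i j : ℕ} (hi : 1 ≤ i) : 0 < rc i j := by
  have : (1 : ℝ) ≤ i := by exact_mod_cast hi
  unfold rc
  positivity

lemma rc_log {i j : ℕ} (hi : 1 ≤ i) (hj : 1 ≤ j) :
    -Real.log (rc i j) ≤ Real.log 2 + 2 * Real.log (1 + min i j : ℕ) := by
  set m := min i j with hm
  have hm1 : 1 ≤ m := le_min hi hj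
  have hm1r : (1 : ℝ) ≤ m := by exact_mod_cast hm1
  have h1 : 1 / (2 * ((1 + m : ℕ) : ℝ) ^ 2) ≤ rc i j := by
    have e1 : 1 / ((m : ℝ) * (m + 1)) ≤ 1 / ((i : ℝ) * (i + 1)) + 1 / ((j : ℝ) * (j + 1)) := by
      rcases min_choice i j with h | h
      · rw [hm, h]
        have : 0 ≤ 1 / ((j : ℝ) * (j + 1)) := by positivity
        linarith
      · rw [hm, h]
        have : 0 ≤ 1 / ((i : ℝ) * (i + 1)) := by positivity
        linarith
    have e2 : 1 / (((1 + m : ℕ) : ℝ) ^ 2) ≤ 1 / ((m : ℝ) * (m + 1)) := by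
      refine one_div_le_one_div_of_le (by positivity) ?_
      push_cast
      nlinarith
    unfold rc
    rw [one_div, mul_inv, ← one_div, ← one_div]
    linarith
  have h2 : (0 : ℝ) < 1 / (2 * ((1 + m : ℕ) : ℝ) ^ 2) := by positivity
  have h3 := Real.log_le_log h2 h1
  rw [one_div, Real.log_inv, Real.log_mul (by norm_num) (by positivity), Real.log_pow] at h3
  push_cast at h3 ⊢
  linarith

lemma sum_tel (t : ℕ) : ∑ i ∈ range (t + 1), 1 / ((i : ℝ) * (i + 1)) ≤ 1 - 1 / ((t : ℝ) + 1) := by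
  induction t with
  | zero => simp
  | succ t ih =>
    rw [sum_range_succ]
    have : (1 : ℝ) / (((t + 1 : ℕ) : ℝ) * (((t + 1 : ℕ) : ℝ) + 1)) =
        1 / ((t : ℝ) + 1) - 1 / (((t + 1 : ℕ) : ℝ) + 1) := by
      push_cast
      field_simp
      ring
    rw [this]
    linarith

lemma sum_rc (t : ℕ) : ∑ ij ∈ antidiagonal t, rc ij.1 ij.2 ≤ 1 := by
  have e1 : ∑ ij ∈ antidiagonal t, 1 / (((ij.1 : ℕ) : ℝ) * (ij.1 + 1)) =
      ∑ i ∈ range (t + 1), 1 / ((i : ℝ) * (i + 1)) :=
    Finset.Nat.sum_antidiagonal_eq_sum_range_succ (fun i _ => 1 / ((i : ℝ) * (i + 1))) t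
  have e2 : ∑ ij ∈ antidiagonal t, 1 / (((ij.2 : ℕ) : ℝ) * (ij.2 + 1)) =
      ∑ ij ∈ antidiagonal t, 1 / (((ij.1 : ℕ) : ℝ) * (ij.1 + 1)) :=
    Finset.Nat.sum_antidiagonal_swap (f := fun ij : ℕ × ℕ => 1 / (((ij.1 : ℕ) : ℝ) * (ij.1 + 1)))
  have h1 := sum_tel t
  have h2 : 0 ≤ 1 / ((t : ℝ) + 1) := by positivity
  unfold rc
  rw [← sum_div, sum_add_distrib, e2, e1]
  linarith

/-- first code -/
noncomputable def q1 (u v w : ℝ) (i j : ℕ) : ℝ :=
  if i = 0 then (if j = 0 then 1 else v) else (if j = 0 then u else w * rc i j)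

lemma q1_pos {u v w : ℝ} (hu : 0 < u) (hv : 0 < v) (hw : 0 < w) (i j : ℕ) : 0 < q1 u v w i j := by
  unfold q1
  split_ifs with h1 h2 h3
  · exact one_pos
  · exact hv
  · exact hu
  · exact mul_pos hw (rc_pos (by omega))

lemma q1_sum {u v w : ℝ} (hu : 0 < u) (hv : 0 < v) (hw : 0 < w) (h : u + v + w ≤ 1) (t : ℕ) :
    ∑ ij ∈ antidiagonal t, q1 u v w ij.1 ij.2 ≤ 1 := by
  rcases Nat.eq_zero_or_pos t with rfl | ht
  · simp [q1]
  have h1 : ∀ ij ∈ antidiagonal t, q1 u v w ij.1 ij.2 ≤
      (if ij = (t, 0) then u else 0) + (if ij = (0, t) then v else 0) + w * rc ij.1 ij.2 := by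
    rintro ⟨i, j⟩ hij
    rw [HasAntidiagonal.mem_antidiagonal] at hij
    have h0 := mul_nonneg hw.le (rc_nonneg i j)
    dsimp only at hij ⊢
    unfold q1
    have hA : 0 ≤ (if (i, j) = (t, 0) then u else 0) := by
      split_ifs
      · exact hu.le
      · exact le_rfl
    have hB : 0 ≤ (if (i, j) = (0, t) then v else 0) := by
      split_ifs
      · exact hv.le
      · exact le_rfl
    by_cases ci : i = 0
    · have hjt : j = t := by omega
      have hj0 : j ≠ 0 := by omega
      rw [if_pos ci, if_neg hj0]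
      rw [if_pos (show (i, j) = (0, t) by rw [ci, hjt])]
      linarith
    · rw [if_neg ci]
      by_cases cj : j = 0
      · rw [if_pos cj, if_pos (show (i, j) = (t, 0) by rw [cj]; congr 1; omega)]
        linarith
      · rw [if_neg cj]
        linarith
  refine (sum_le_sum h1).trans ?_
  rw [sum_add_distrib, sum_add_distrib, ← mul_sum, sum_ite_eq', sum_ite_eq',
    if_pos (by rw [HasAntidiagonal.mem_antidiagonal]; simp),
    if_pos (by rw [HasAntidiagonal.mem_antidiagonal]; simp)]
  have := mul_le_mul_of_nonneg_left (sum_rc t) hw.le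
  linarith

/-- **The loss from the first code.** -/
lemma loss_q1 (G : Finset α) (a b : α → ℕ) {u v w : ℝ} (hu : 0 < u) (hv : 0 < v)
    (hw : 0 < w) (h : u + v + w ≤ 1) :
    loss G a b ≤ fr G (fun g => 1 ≤ a g ∧ b g = 0) * -Real.log u +
      fr G (fun g => a g = 0 ∧ 1 ≤ b g) * -Real.log v +
      fr G (fun g => 1 ≤ a g ∧ 1 ≤ b g) * (-Real.log w + Real.log 2) + 2 * mu G a b := by
  have h1 := code G a b (q1 u v w) (q1_pos hu hv hw) (q1_sum hu hv hw h)
  have h2 : loss G a b ≤ (∑ g ∈ G, -Real.log (q1 u v w (a g) (b g))) / G.card := by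
    rw [sum_neg_distrib, neg_div]
    unfold loss
    linarith
  refine h2.trans ?_
  rw [← avg_ite, ← avg_ite, ← avg_ite]
  have h3 : 2 * mu G a b = (∑ g ∈ G, 2 * Real.log (1 + min (a g) (b g) : ℕ)) / G.card := by
    unfold mu
    rw [← mul_sum]
    ring
  rw [h3, ← add_div, ← add_div, ← add_div, ← sum_add_distrib, ← sum_add_distrib,
    ← sum_add_distrib]
  refine div_le_div_of_nonneg_right (sum_le_sum fun g _ => ?_) (by positivity)
  have h4 : 0 ≤ Real.log ((1 + min (a g) (b g) : ℕ) : ℝ) := Real.log_natCast_nonneg _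
  unfold q1
  by_cases ca : a g = 0 <;> by_cases cb : b g = 0
  · simp [ca, cb]
  · have cb' : 1 ≤ b g := by omega
    simp [ca, cb, cb']
  · have ca' : 1 ≤ a g := by omega
    simp [ca, cb, ca']
  · have ca' : 1 ≤ a g := by omega
    have cb' : 1 ≤ b g := by omega
    rw [if_neg ca, if_neg cb, if_neg (fun hh => cb hh.2), if_neg (fun hh => ca hh.1),
      if_pos ⟨ca', cb'⟩, Real.log_mul hw.ne' (rc_pos ca').ne']
    have := rc_log ca' cb'
    linarith

end Pool.Agent.R483.GC
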