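import Mathlib
import Pool.Agent.R483.GC.Code

/-!
# The loss of entropy when both variables are nearly constant
-/

set_option autoImplicit false

namespace Pool.Agent.R483.GC

open Finset Pool.Agent.Y359.PE
open scoped Classical

variable {α β γ : Type*}

/-- second code, around the pair `(x0, 0)` -/
noncomputable def q2 (x0 : ℕ) (ν : ℝ) (i j : ℕ) : ℝ :=
  if i + j = x0 then (if j = 0 then 1 - ν else if i = 0 then ν / 3 else ν / 3 * rc i j)
  else (if i = 0 ∨ j = 0 ∨ i = x0 then 1 / 4 else 1 / 4 * rc i j)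

lemma q2_pos {x0 : ℕ} {ν : ℝ} (h0 : 0 < ν) (h1 : ν < 1) (i j : ℕ) : 0 < q2 x0 ν i j := by
  unfold q2
  split_ifs with c1 c2 c3 c4
  · linarith
  · positivity
  · exact mul_pos (by positivity) (rc_pos (by omega))
  · norm_num
  · push Not at c4
    exact mul_pos (by norm_num) (rc_pos (by omega))

lemma q2_sum {x0 : ℕ} {ν : ℝ} (h0 : 0 < ν) (h1 : ν < 1) (t : ℕ) :
    ∑ ij ∈ antidiagonal t, q2 x0 ν ij.1 ij.2 ≤ 1 := by
  by_cases ht : t = x0
  · subst ht
    have h1 : ∀ ij ∈ antidiagonal t, q2 t ν ij.1 ij.2 ≤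
        (if ij = (t, 0) then 1 - ν else 0) + (if ij = (0, t) then ν / 3 else 0) +
          ν / 3 * rc ij.1 ij.2 := by
      rintro ⟨i, j⟩ hij
      rw [HasAntidiagonal.mem_antidiagonal] at hij
      have h2 := mul_nonneg (show 0 ≤ ν / 3 by positivity) (rc_nonneg i j)
      dsimp only at hij ⊢
      have hA : 0 ≤ (if (i, j) = (t, 0) then 1 - ν else 0) := by
        split_ifs
        · linarith
        · exact le_rfl
      have hB : 0 ≤ (if (i, j) = (0, t) then ν / 3 else 0) := by
        split_ifs
        · positivity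
        · exact le_rfl
      unfold q2
      rw [if_pos hij]
      by_cases cj : j = 0
      · rw [if_pos cj, if_pos (show (i, j) = (t, 0) by rw [cj]; congr 1; omega)]
        linarith
      · rw [if_neg cj]
        by_cases ci : i = 0
        · rw [if_pos ci, if_pos (show (i, j) = (0, t) by rw [ci]; congr 1; omega)]
          linarith
        · rw [if_neg ci]
          linarith
    refine (sum_le_sum h1).trans ?_
    rw [sum_add_distrib, sum_add_distrib, ← mul_sum, sum_ite_eq', sum_ite_eq',
      if_pos (by rw [HasAntidiagonal.mem_antidiagonal]; simp),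
      if_pos (by rw [HasAntidiagonal.mem_antidiagonal]; simp)]
    have := mul_le_mul_of_nonneg_left (sum_rc t) (show 0 ≤ ν / 3 by positivity)
    linarith
  · have h1 : ∀ ij ∈ antidiagonal t, q2 x0 ν ij.1 ij.2 ≤
        (if ij = (t, 0) then 1 / 4 else 0) + (if ij = (0, t) then 1 / 4 else 0) +
        (if ij = (x0, t - x0) then 1 / 4 else 0) + 1 / 4 * rc ij.1 ij.2 := by
      rintro ⟨i, j⟩ hij
      rw [HasAntidiagonal.mem_antidiagonal] at hij
      have h2 := rc_nonneg i j
      dsimp only at hij ⊢
      have hA : (0 : ℝ) ≤ (if (i, j) = (t, 0) then 1 / 4 else 0) := by split_ifs <;> norm_num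
      have hB : (0 : ℝ) ≤ (if (i, j) = (0, t) then 1 / 4 else 0) := by split_ifs <;> norm_num
      have hC : (0 : ℝ) ≤ (if (i, j) = (x0, t - x0) then 1 / 4 else 0) := by
        split_ifs <;> norm_num
      unfold q2
      rw [if_neg (by omega)]
      by_cases cj : j = 0
      · rw [if_pos (Or.inr (Or.inl cj)), if_pos (show (i, j) = (t, 0) by rw [cj]; congr 1; omega)]
        linarith
      · by_cases ci : i = 0
        · rw [if_pos (Or.inl ci), if_pos (show (i, j) = (0, t) by rw [ci]; congr 1; omega)]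
          linarith
        · by_cases cx : i = x0
          · rw [if_pos (Or.inr (Or.inr cx)),
              if_pos (show (i, j) = (x0, t - x0) by rw [cx]; congr 1; omega)]
            linarith
          · rw [if_neg (by tauto)]
            linarith
    refine (sum_le_sum h1).trans ?_
    rw [sum_add_distrib, sum_add_distrib, sum_add_distrib, ← mul_sum, sum_ite_eq', sum_ite_eq',
      sum_ite_eq', if_pos (by rw [HasAntidiagonal.mem_antidiagonal]; simp),
      if_pos (by rw [HasAntidiagonal.mem_antidiagonal]; simp)]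
    have h3 := sum_rc t
    have h4 : (if (x0, t - x0) ∈ antidiagonal t then (1 / 4 : ℝ) else 0) ≤ 1 / 4 := by
      split_ifs <;> norm_num
    linarith

lemma loss_q2 (G : Finset α) (hG : G.Nonempty) (a b : α → ℕ) (x0 : ℕ) {ν : ℝ} (h0 : 0 < ν)
    (h1 : ν < 1) :
    loss G a b ≤ -Real.log (1 - ν) + fr G (fun g => a g ≠ x0 ∧ b g ≠ 0) * (Real.log 3 - Real.log ν) +
      fr G (fun g => a g ≠ x0 ∨ b g ≠ 0) * Real.log 4 +
      fr G (fun g => 1 ≤ a g ∧ 1 ≤ b g) * Real.log 2 + 2 * mu G a b := by
  have hN : (0 : ℝ) < G.card := by exact_mod_cast card_pos.2 hG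
  have h2 := code G a b (q2 x0 ν) (q2_pos h0 h1) (q2_sum h0 h1)
  have h3 : loss G a b ≤ (∑ g ∈ G, -Real.log (q2 x0 ν (a g) (b g))) / G.card := by
    rw [sum_neg_distrib, neg_div]
    unfold loss
    linarith
  refine h3.trans ?_
  rw [← avg_ite, ← avg_ite, ← avg_ite]
  have h4 : 2 * mu G a b = (∑ g ∈ G, 2 * Real.log (1 + min (a g) (b g) : ℕ)) / G.card := by
    unfold mu
    rw [← mul_sum]
    ring
  have h5 : -Real.log (1 - ν) = (∑ _g ∈ G, -Real.log (1 - ν)) / G.card := by
    rw [sum_const, nsmul_eq_mul]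
    field_simp
  rw [h4, h5, ← add_div, ← add_div, ← add_div, ← add_div, ← sum_add_distrib, ← sum_add_distrib,
    ← sum_add_distrib, ← sum_add_distrib]
  refine div_le_div_of_nonneg_right (sum_le_sum fun g _ => ?_) (by positivity)
  have g1 : 0 ≤ Real.log ((1 + min (a g) (b g) : ℕ) : ℝ) := Real.log_natCast_nonneg _
  have g2 : 0 ≤ -Real.log (1 - ν) := by
    have := Real.log_nonpos (show 0 ≤ 1 - ν by linarith) (by linarith)
    linarith
  have g3 : 0 ≤ -Real.log ν := by
    have := Real.log_nonpos h0.le h1.le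
    linarith
  have g4 : 0 ≤ Real.log 2 := Real.log_nonneg (by norm_num)
  have g5 : 0 ≤ Real.log 3 := Real.log_nonneg (by norm_num)
  have g6 : 0 ≤ Real.log 4 := Real.log_nonneg (by norm_num)
  have hν3 : Real.log (ν / 3) = Real.log ν - Real.log 3 := Real.log_div h0.ne' (by norm_num)
  have h14 : Real.log (1 / 4) = -Real.log 4 := by rw [one_div, Real.log_inv]
  have hi3 : 0 ≤ (if 1 ≤ a g ∧ 1 ≤ b g then Real.log 2 else 0) := by
    split_ifs
    · exact g4
    · exact le_rfl
  have hi2 : 0 ≤ (if a g ≠ x0 ∨ b g ≠ 0 then Real.log 4 else 0) := by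
    split_ifs
    · exact g6
    · exact le_rfl
  have hi1 : 0 ≤ (if a g ≠ x0 ∧ b g ≠ 0 then Real.log 3 - Real.log ν else 0) := by
    split_ifs
    · linarith
    · exact le_rfl
  unfold q2
  by_cases cs : a g + b g = x0
  · rw [if_pos cs]
    by_cases cb : b g = 0
    · rw [if_pos cb]
      linarith
    · rw [if_neg cb]
      have hne : a g ≠ x0 ∧ b g ≠ 0 := ⟨by omega, cb⟩
      rw [if_pos hne]
      by_cases ca : a g = 0
      · rw [if_pos ca, hν3]
        linarith
      · rw [if_neg ca]
        have ca' : 1 ≤ a g := by omega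
        have cb' : 1 ≤ b g := by omega
        have hpos := rc_pos (j := b g) ca'
        have hrc := rc_log ca' cb'
        rw [Real.log_mul (by positivity) hpos.ne', hν3, if_pos (show 1 ≤ a g ∧ 1 ≤ b g from ⟨ca', cb'⟩)]
        linarith
  · rw [if_neg cs]
    have hne : a g ≠ x0 ∨ b g ≠ 0 := by omega
    rw [if_pos hne]
    by_cases cc : a g = 0 ∨ b g = 0 ∨ a g = x0
    · rw [if_pos cc, h14]
      linarith
    · rw [if_neg cc]
      have ca' : 1 ≤ a g := by omega
      have cb' : 1 ≤ b g := by omega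
      have hpos := rc_pos (j := b g) ca'
      have hrc := rc_log ca' cb'
      rw [Real.log_mul (by norm_num) hpos.ne', h14, if_pos (show 1 ≤ a g ∧ 1 ≤ b g from ⟨ca', cb'⟩)]
      linarith

lemma neg_log_one_sub {t : ℝ} (h0 : 0 ≤ t) (h1 : t ≤ 1 / 2) : -Real.log (1 - t) ≤ 2 * t := by
  have h2 := Real.one_sub_inv_le_log_of_pos (show 0 < 1 - t by linarith)
  have h3 : (1 - t)⁻¹ ≤ 1 + 2 * t := by
    rw [inv_le_comm₀ (by linarith) (by linarith), inv_eq_one_div, div_le_iff₀ (by linarith)]
    nlinarith
  linarith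

lemma rlog {x y r I : ℝ} (hr : 0 < r) (hrx : r ≤ x) (hry : r ≤ y) (hx : x ≤ 1 / 8)
    (hy : y ≤ 1 / 8) (hI0 : 0 ≤ I)
    (hI : r * Real.log (r / (x * y)) + (1 - r) * Real.log (1 - r) ≤ I) :
    r * -Real.log (x + y) ≤ 2 * I + 2 * r + (x + y) := by
  have hx0 : 0 < x := by linarith
  have hy0 : 0 < y := by linarith
  set w := x * y with hw
  have hw0 : 0 < w := by positivity
  have hw1 : w ≤ 1 / 64 := by nlinarith
  set s := Real.sqrt (Real.sqrt w) with hs
  have hs0 : 0 < s := Real.sqrt_pos.2 (Real.sqrt_pos.2 hw0)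
  have hs2 : s ^ 2 = Real.sqrt w := Real.sq_sqrt (Real.sqrt_nonneg _)
  have hs4 : s ^ 4 = w := by
    have : s ^ 4 = (s ^ 2) ^ 2 := by ring
    rw [this, hs2, Real.sq_sqrt hw0.le]
  have hlw : Real.log w = 4 * Real.log s := by
    rw [← hs4, Real.log_pow]
    push_cast
    ring
  have hl0 : Real.log w ≤ 0 := Real.log_nonpos hw0.le (by linarith)
  have h1 : -r ≤ (1 - r) * Real.log (1 - r) := by
    have h2 := Real.one_sub_inv_le_log_of_pos (show 0 < 1 - r by linarith)
    have h3 := mul_le_mul_of_nonneg_left h2 (show 0 ≤ 1 - r by linarith)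
    have h4 : (1 - r) * (1 - (1 - r)⁻¹) = -r := by
      have : (1 - r) ≠ 0 := by linarith
      field_simp
      ring
    linarith
  have h2 : r * Real.log (r / w) ≤ I + r := by linarith
  have h3 : -Real.log (x + y) ≤ -Real.log w / 2 := by
    have h4 : w ≤ (x + y) ^ 2 := by nlinarith
    have h5 := Real.log_le_log hw0 h4
    rw [Real.log_pow] at h5
    push_cast at h5
    linarith
  have h6 : r * -Real.log (x + y) ≤ r * (-Real.log w / 2) := mul_le_mul_of_nonneg_left h3 hr.le
  refine h6.trans ?_
  rcases le_or_gt (s ^ 3) r with hc | hc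
  · have h7 := Real.log_le_log (by positivity) hc
    rw [Real.log_pow] at h7
    push_cast at h7
    have h8 : Real.log (r / w) = Real.log r - Real.log w := Real.log_div hr.ne' hw0.ne'
    have h9 : -Real.log w / 4 ≤ Real.log (r / w) := by
      rw [h8]
      linarith
    have h10 := mul_le_mul_of_nonneg_left h9 hr.le
    nlinarith
  · have h7 : -Real.log s ≤ 1 / s := by
      have := Real.one_sub_inv_le_log_of_pos hs0
      rw [← one_div] at this
      linarith
    have h8 : r * (-Real.log w / 2) ≤ s ^ 3 * (2 * (1 / s)) := by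
      refine mul_le_mul hc.le ?_ (by linarith) (by positivity)
      rw [hlw]
      linarith
    have h9 : s ^ 3 * (2 * (1 / s)) = 2 * s ^ 2 := by
      field_simp
    rw [h9, hs2] at h8
    have h10 : 2 * Real.sqrt w ≤ x + y := by
      have h11 := Real.sqrt_nonneg w
      have h12 := Real.sq_sqrt hw0.le
      nlinarith [sq_nonneg (x - y)]
    linarith

/-- **Nearly constant variables**, the second one mostly zero. -/
lemma loss_near (G : Finset α) (hG : G.Nonempty) (a b : α → ℕ) (x0 : ℕ)
    (hx : fr G (fun g => a g ≠ x0) ≤ 1 / 8) (hy : fr G (fun g => b g ≠ 0) ≤ 1 / 8) :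
    loss G a b ≤ 10 * (fr G (fun g => a g ≠ x0) + fr G (fun g => b g ≠ 0)) + 2 * mi G a b +
      3 * mu G a b := by
  have hN : (0 : ℝ) < G.card := by exact_mod_cast card_pos.2 hG
  have hI0 := mi_nonneg G hG a b
  have hm0 := mu_nonneg G a b
  set x := fr G (fun g => a g ≠ x0) with hxd
  set y := fr G (fun g => b g ≠ 0) with hyd
  have hx0 : 0 ≤ x := fr_nonneg _ _
  have hy0 : 0 ≤ y := fr_nonneg _ _
  rcases (add_nonneg hx0 hy0).eq_or_lt with hν | hν
  · have e1 : x = 0 := by linarith
    have e2 : y = 0 := by linarith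
    have f1 : ∀ g ∈ G, a g = x0 := by
      intro g hg
      by_contra hcon
      have : 0 < x := fr_pos (P := fun g => a g ≠ x0) hg hcon
      linarith
    have f2 : ∀ g ∈ G, b g = 0 := by
      intro g hg
      by_contra hcon
      have : 0 < y := fr_pos (P := fun g => b g ≠ 0) hg hcon
      linarith
    have f3 : h G (fun g => (a g, b g)) = 0 := h_const _ _ fun u hu v hv => by
      rw [f1 u hu, f1 v hv, f2 u hu, f2 v hv]
    have f4 := h_nonneg G (fun g => a g + b g)
    unfold loss
    rw [f3]
    linarith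
  · have h1 := loss_q2 G hG a b x0 hν (by linarith)
    set r := fr G (fun g => a g ≠ x0 ∧ b g ≠ 0) with hrd
    have hr0 : 0 ≤ r := fr_nonneg _ _
    have hrx : r ≤ x := fr_mono G fun g _ hg => hg.1
    have hry : r ≤ y := fr_mono G fun g _ hg => hg.2
    have h2 := neg_log_one_sub hν.le (by linarith)
    have h3 : r * -Real.log (x + y) ≤ 2 * mi G a b + 2 * r + (x + y) := by
      rcases hr0.eq_or_lt with hr | hr
      · rw [← hr]
        linarith
      · refine rlog hr hrx hry hx hy hI0 ?_
        have hxp : 0 < x := by linarith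
        have hyp : 0 < y := by linarith
        have := mutualInfo G hG a b (fun t => t ≠ x0) (fun t => t ≠ 0) (r / (x * y)) (1 - r)
          (by positivity) (by linarith) x y r rfl rfl rfl (by
            have e : x * y * (r / (x * y)) = r := by field_simp
            rw [e]
            have : 0 ≤ x * y := by positivity
            nlinarith)
        exact this
    have h4 : fr G (fun g => a g ≠ x0 ∨ b g ≠ 0) ≤ x + y := fr_or _ _ _
    have h5 : fr G (fun g => a g ≠ x0 ∨ b g ≠ 0) * Real.log 4 ≤ (x + y) * (3 / 2) := by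
      have h6 : Real.log 4 ≤ 3 / 2 := by
        have : Real.log 4 = 2 * Real.log 2 := by
          rw [show (4 : ℝ) = 2 ^ 2 by norm_num, Real.log_pow]
          push_cast
          ring
        rw [this]
        linarith [Real.log_two_lt_d9]
      exact mul_le_mul h4 h6 (Real.log_nonneg (by norm_num)) (by linarith)
    have h6 : Real.log 3 ≤ 2 := by
      have := Real.log_le_sub_one_of_pos (show (0 : ℝ) < 3 by norm_num)
      linarith
    have h7 := rho_le_mu G a b
    have h8 := mul_le_mul_of_nonneg_left h6 hr0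
    have e1 : r * (Real.log 3 - Real.log (x + y)) = r * Real.log 3 + r * -Real.log (x + y) := by
      ring
    rw [e1] at h1
    linarith

end Pool.Agent.R483.GC
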