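import Mathlib
import Pool.Agent.R483.GC.Near
import Pool.Agent.Y359.PE.Prod

/-!
# The entropy of the sum of two dependent variables with natural values
-/

set_option autoImplicit false

namespace Pool.Agent.R483.GC

open Finset Pool.Agent.Y359.PE
open scoped Classical

variable {α β γ : Type*}

lemma log3_le : Real.log 3 ≤ 3 / 2 := by
  have h1 : Real.log 3 ≤ Real.log 4 := Real.log_le_log (by norm_num) (by norm_num)
  have h2 : Real.log 4 = 2 * Real.log 2 := by
    rw [show (4 : ℝ) = 2 ^ 2 by norm_num, Real.log_pow]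
    push_cast
    ring
  linarith [Real.log_two_lt_d9]

lemma loss_const (G : Finset α) (a b : α → ℕ) : loss G a b ≤ 5 + 3 * mu G a b := by
  have h1 := loss_q1 G a b (u := 1 / 3) (v := 1 / 3) (w := 1 / 3) (by norm_num) (by norm_num)
    (by norm_num) (by norm_num)
  have h2 : -Real.log (1 / 3) = Real.log 3 := by rw [one_div, Real.log_inv, neg_neg]
  rw [h2] at h1
  have h3 := log3_le
  have h30 : 0 ≤ Real.log 3 := Real.log_nonneg (by norm_num)
  have e1 := fr_le_one G (fun g => 1 ≤ a g ∧ b g = 0)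
  have e2 := fr_le_one G (fun g => a g = 0 ∧ 1 ≤ b g)
  have e3 := fr_le_one G (fun g => 1 ≤ a g ∧ 1 ≤ b g)
  have h4 := rho_le_mu G a b
  have f1 := mul_le_mul_of_nonneg_right e1 h30
  have f2 := mul_le_mul_of_nonneg_right e2 h30
  have f3 := mul_le_mul_of_nonneg_right e3 h30
  rw [mul_add] at h1
  linarith

lemma loss_rho (G : Finset α) (a b : α → ℕ) {ρ0 : ℝ} (h0 : 0 < ρ0)
    (hρ : ρ0 ≤ fr G (fun g => 1 ≤ a g ∧ 1 ≤ b g)) : loss G a b ≤ (10 / ρ0 + 3) * mu G a b := by
  have h1 := loss_const G a b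
  have h2 := rho_le_mu G a b
  have h3 : ρ0 / 2 ≤ mu G a b := by
    have h4 := mul_le_mul_of_nonneg_right hρ (show 0 ≤ Real.log 2 from Real.log_nonneg (by norm_num))
    have h5 : ρ0 * (1 / 2) ≤ ρ0 * Real.log 2 := by
      refine mul_le_mul_of_nonneg_left ?_ h0.le
      linarith [Real.log_two_gt_d9]
    linarith
  have h4 : 5 ≤ 10 / ρ0 * mu G a b := by
    rw [div_mul_eq_mul_div, le_div_iff₀ h0]
    linarith
  linarith

lemma loss_small (G : Finset α) (a b : α → ℕ) {η : ℝ} (h0 : 0 < η) (h1 : η ≤ 1 / 2)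
    (hb : fr G (fun g => 1 ≤ b g) ≤ η ^ 2 / 2) : loss G a b ≤ 4 * η + 3 * mu G a b := by
  have h2 := loss_q1 G a b (u := 1 - η) (v := η / 2) (w := η / 2) (by linarith) (by positivity)
    (by positivity) (by linarith)
  have h3 := neg_log_one_sub h0.le h1
  have h4 : -Real.log (η / 2) ≤ 2 / η := by
    have := Real.log_le_sub_one_of_pos (show 0 < 2 / η by positivity)
    rw [← Real.log_inv, inv_div]
    linarith
  have h40 : 0 ≤ -Real.log (η / 2) := by
    have := Real.log_nonpos (show 0 ≤ η / 2 by positivity) (by linarith)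
    linarith
  have h30 : 0 ≤ -Real.log (1 - η) := by
    have := Real.log_nonpos (show 0 ≤ 1 - η by linarith) (by linarith)
    linarith
  have e1 := fr_le_one G (fun g => 1 ≤ a g ∧ b g = 0)
  have e2 : fr G (fun g => a g = 0 ∧ 1 ≤ b g) ≤ η ^ 2 / 2 := (fr_mono G fun g _ hg => hg.2).trans hb
  have e3 : fr G (fun g => 1 ≤ a g ∧ 1 ≤ b g) ≤ η ^ 2 / 2 := (fr_mono G fun g _ hg => hg.2).trans hb
  have h5 := rho_le_mu G a b
  have f1 : fr G (fun g => 1 ≤ a g ∧ b g = 0) * -Real.log (1 - η) ≤ 1 * (2 * η) :=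
    mul_le_mul e1 h3 h30 zero_le_one
  have f2 : fr G (fun g => a g = 0 ∧ 1 ≤ b g) * -Real.log (η / 2) ≤ η ^ 2 / 2 * (2 / η) :=
    mul_le_mul e2 h4 h40 (by positivity)
  have f3 : fr G (fun g => 1 ≤ a g ∧ 1 ≤ b g) * -Real.log (η / 2) ≤ η ^ 2 / 2 * (2 / η) :=
    mul_le_mul e3 h4 h40 (by positivity)
  have e : η ^ 2 / 2 * (2 / η) = η := by field_simp
  rw [e] at f2 f3
  rw [mul_add] at h2
  linarith

lemma mi_big (G : Finset α) (hG : G.Nonempty) (a b : α → ℕ) {c : ℝ} (h0 : 0 < c) (_h1 : c ≤ 1)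
    (ha : c < fr G (fun g => 1 ≤ a g)) (hb : c < fr G (fun g => 1 ≤ b g))
    (hρ : fr G (fun g => 1 ≤ a g ∧ 1 ≤ b g) ≤ c ^ 2 / 16) : c ^ 2 / 16 ≤ mi G a b := by
  set x := fr G (fun g => 1 ≤ a g) with hx
  set y := fr G (fun g => 1 ≤ b g) with hy
  set z := fr G (fun g => 1 ≤ a g ∧ 1 ≤ b g) with hz
  have hx1 : x ≤ 1 := fr_le_one _ _
  have hy1 : y ≤ 1 := fr_le_one _ _
  have hz0 : 0 ≤ z := fr_nonneg _ _
  have hxy : c ^ 2 ≤ x * y := by nlinarith
  have hxy1 : x * y ≤ 1 := by nlinarith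
  have hxy0 : 0 < x * y := by nlinarith [sq_nonneg c, mul_pos h0 h0]
  have h2 := mutualInfo G hG a b (fun t => 1 ≤ t) (fun t => 1 ≤ t) (1 / 2) (1 + x * y / 2)
    (by norm_num) (by positivity) x y z rfl rfl rfl (by nlinarith)
  refine le_trans ?_ h2
  have h3 : x * y / 4 ≤ Real.log (1 + x * y / 2) := by
    have h4 := Real.one_sub_inv_le_log_of_pos (show 0 < 1 + x * y / 2 by positivity)
    refine le_trans ?_ h4
    have h5 : (1 + x * y / 2)⁻¹ ≤ 1 - x * y / 4 := by
      rw [inv_eq_one_div, div_le_iff₀ (by positivity)]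
      nlinarith
    linarith
  have h6 : Real.log (1 / 2) = -Real.log 2 := by rw [one_div, Real.log_inv]
  rw [h6]
  have h7 := Real.log_two_lt_d9
  have h8 : 15 / 16 * (x * y / 4) ≤ (1 - z) * Real.log (1 + x * y / 2) :=
    mul_le_mul (by nlinarith) h3 (by positivity) (by nlinarith)
  have h9 : z * Real.log 2 ≤ c ^ 2 / 16 * 1 :=
    mul_le_mul hρ (by linarith) (Real.log_nonneg (by norm_num)) (by positivity)
  nlinarith

/-- the most popular value -/
lemma ent_mode (G : Finset α) (hG : G.Nonempty) (a : α → ℕ) : ∃ x0 : ℕ, ∀ δ : ℝ, 0 < δ → δ < 1 →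
    (δ < fr G (fun g => a g ≠ x0) → δ ≤ h G a) ∧
    (fr G (fun g => a g ≠ x0) ≤ δ → fr G (fun g => a g ≠ x0) * Real.log (1 / δ) ≤ h G a) := by
  have hN : (0 : ℝ) < G.card := by exact_mod_cast card_pos.2 hG
  obtain ⟨g0, hg0, hmax⟩ := exists_max_image G (fun g => fc G a g) hG
  refine ⟨a g0, fun δ hδ hδ1 => ⟨fun hlt => ?_, fun hle => ?_⟩⟩
  · have h1 := h_ge_short G G hG a (Subset.refl _) (F := (fc G a g0 : ℝ)) (fun x hx => by
      exact_mod_cast hmax x hx)
    rw [div_self hN.ne', one_mul] at h1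
    refine le_trans ?_ h1
    have h2 : (fc G a g0 : ℝ) = G.card * (1 - fr G (fun g => a g ≠ a g0)) := by
      have h3 := fr_add_not G hG (fun g => a g = a g0)
      have h4 : fr G (fun g => a g = a g0) = (fc G a g0 : ℝ) / G.card := by
        unfold fr fc cl
        congr
      have h5 : fr G (fun g => a g ≠ a g0) = fr G (fun g => ¬ a g = a g0) := rfl
      rw [h5, ← h3, h4]
      field_simp
      ring
    have h6 : (fc G a g0 : ℝ) ≤ G.card * (1 - δ) := by
      rw [h2]
      nlinarith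
    have h7 := Real.log_le_log (fc_posR (f := a) hg0) h6
    rw [Real.log_mul hN.ne' (by linarith)] at h7
    have h8 := Real.log_le_sub_one_of_pos (show 0 < 1 - δ by linarith)
    linarith
  · let a' : α → ℤ := fun g => (a g : ℤ) - a g0
    have h1 : h G a' = h G a := h_congr fun x _ y _ => by
      simp only [a']
      omega
    have h2 : (nz G a' : ℝ) = fr G (fun g => a g ≠ a g0) * G.card := by
      rw [fr_eq, div_mul_cancel₀ _ hN.ne']
      unfold nz
      congr 2
      ext g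
      simp only [mem_filter, a']
      constructor
      · rintro ⟨c1, c2⟩
        exact ⟨c1, fun hh => c2 (by rw [hh]; ring)⟩
      · rintro ⟨c1, c2⟩
        exact ⟨c1, fun hh => c2 (by omega)⟩
    have h3 := nz_log_le G a' hG hδ (by
      rw [h2]
      exact mul_le_mul_of_nonneg_right hle hN.le)
    rw [h1, h2] at h3
    have h4 : (fr G (fun g => a g ≠ a g0) * Real.log (1 / δ)) * G.card ≤ h G a * G.card := by
      linarith
    exact le_of_mul_le_mul_right h4 hN

/-- **The cell inequality for dependent variables.** -/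
theorem cell (ε : ℝ) (hε : 0 < ε) (hε1 : ε ≤ 1) : ∃ C : ℝ, 1 ≤ C ∧
    ∀ (α : Type) (G : Finset α), G.Nonempty → ∀ a b : α → ℕ,
      loss G a b ≤ ε * (h G a + h G b) + C * mi G a b + C * mu G a b := by
  set δ : ℝ := Real.exp (-(10 / ε)) with hδ
  have hδ0 : 0 < δ := Real.exp_pos _
  have hten : 10 ≤ 10 / ε := by rw [le_div_iff₀ hε]; linarith
  have hlogδ : Real.log (1 / δ) = 10 / ε := by
    rw [one_div, Real.log_inv, hδ, Real.log_exp, neg_neg]
  have hδ8 : δ ≤ 1 / 8 := by
    have h1 := Real.add_one_le_exp (10 / ε)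
    rw [hδ, Real.exp_neg, inv_eq_one_div]
    exact one_div_le_one_div_of_le (by norm_num) (by linarith)
  set η : ℝ := ε * δ / 4 with hη
  have hη0 : 0 < η := by positivity
  have hη1 : η ≤ 1 / 2 := by nlinarith
  set c : ℝ := η ^ 2 / 2 with hc
  have hc0 : 0 < c := by positivity
  have hc1 : c ≤ 1 := by nlinarith
  set ρ0 : ℝ := c ^ 2 / 16 with hρ0
  have hρ00 : 0 < ρ0 := by positivity
  have hρ01 : ρ0 ≤ 1 / 16 := by nlinarith
  set C : ℝ := 10 / ρ0 + 3 with hC
  have hC3 : 3 ≤ C := by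
    have : 0 ≤ 10 / ρ0 := by positivity
    linarith
  refine ⟨C, by linarith, fun α G hG a b => ?_⟩
  have hI := mi_nonneg G hG a b
  have hm := mu_nonneg G a b
  have hha := h_nonneg G a
  have hhb := h_nonneg G b
  have hCI : 0 ≤ C * mi G a b := by positivity
  have hCm : 3 * mu G a b ≤ C * mu G a b := mul_le_mul_of_nonneg_right hC3 hm
  have hεh : 0 ≤ ε * (h G a + h G b) := by positivity
  by_cases h1 : ρ0 ≤ fr G (fun g => 1 ≤ a g ∧ 1 ≤ b g)
  · have := loss_rho G a b hρ00 h1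
    linarith
  push Not at h1
  obtain ⟨x0, hx0⟩ := ent_mode G hG a
  obtain ⟨y0, hy0⟩ := ent_mode G hG b
  obtain ⟨ax, bx⟩ := hx0 δ hδ0 (by linarith)
  obtain ⟨ay, by'⟩ := hy0 δ hδ0 (by linarith)
  by_cases h2 : δ ≤ h G a + h G b
  · have h3 : 4 * η ≤ ε * (h G a + h G b) := by
      rw [hη]
      nlinarith
    by_cases h4 : fr G (fun g => 1 ≤ b g) ≤ c
    · have := loss_small G a b hη0 hη1 h4
      linarith
    by_cases h5 : fr G (fun g => 1 ≤ a g) ≤ c
    · have := loss_small G b a hη0 hη1 h5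
      rw [loss_swap, mu_swap] at this
      linarith
    push Not at h4 h5
    have h6 := mi_big G hG a b hc0 hc1 h5 h4 h1.le
    have h7 := loss_const G a b
    have h8 : 5 ≤ 10 / ρ0 * mi G a b := by
      rw [div_mul_eq_mul_div, le_div_iff₀ hρ00]
      linarith
    have h9 : 10 / ρ0 * mi G a b ≤ C * mi G a b := mul_le_mul_of_nonneg_right (by linarith) hI
    linarith
  push Not at h2
  have h3 : fr G (fun g => a g ≠ x0) ≤ δ := by
    by_contra hcon
    push Not at hcon
    have := ax hcon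
    linarith
  have h4 : fr G (fun g => b g ≠ y0) ≤ δ := by
    by_contra hcon
    push Not at hcon
    have := ay hcon
    linarith
  have h5 := bx h3
  have h6 := by' h4
  rw [hlogδ] at h5 h6
  have h7 : 10 * (fr G (fun g => a g ≠ x0) + fr G (fun g => b g ≠ y0)) ≤
      ε * (h G a + h G b) := by
    have h8 : (fr G (fun g => a g ≠ x0) + fr G (fun g => b g ≠ y0)) * (10 / ε) ≤
        h G a + h G b := by linarith
    have h9 := mul_le_mul_of_nonneg_left h8 hε.le
    have h10 : ε * ((fr G (fun g => a g ≠ x0) + fr G (fun g => b g ≠ y0)) * (10 / ε)) =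
        10 * (fr G (fun g => a g ≠ x0) + fr G (fun g => b g ≠ y0)) := by
      field_simp
    linarith
  have h2I : 2 * mi G a b ≤ C * mi G a b := mul_le_mul_of_nonneg_right (by linarith) hI
  rcases Nat.eq_zero_or_pos y0 with hy | hy
  · subst hy
    have := loss_near G hG a b x0 (by linarith) (by linarith)
    linarith
  rcases Nat.eq_zero_or_pos x0 with hx | hx
  · subst hx
    have := loss_near G hG b a y0 (by linarith) (by linarith)
    rw [loss_swap, mu_swap, mi_swap] at this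
    linarith
  -- both modes positive
  exfalso
  have h8 : (1 : ℝ) ≤ fr G (fun g => 1 ≤ a g ∧ 1 ≤ b g) +
      (fr G (fun g => a g ≠ x0) + fr G (fun g => b g ≠ y0)) := by
    have h9 := fr_add_not G hG (fun g => 1 ≤ a g ∧ 1 ≤ b g)
    have h10 : fr G (fun g => ¬ (1 ≤ a g ∧ 1 ≤ b g)) ≤ fr G (fun g => a g ≠ x0 ∨ b g ≠ y0) :=
      fr_mono G fun g _ hg => by
        by_contra hcon
        push Not at hcon
        exact hg ⟨by omega, by omega⟩
    have h11 := fr_or G (fun g => a g ≠ x0) (fun g => b g ≠ y0)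
    linarith
  linarith

end Pool.Agent.R483.GC
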