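import Mathlib
import Pool.Agent.R483.GC.Dep
import Pool.Agent.Y359.PE.Multi

/-!
# The loss of entropy of the sum of two dependent vectors
-/

set_option autoImplicit false

namespace Pool.Agent.R483.GC

open Finset Pool.Agent.Y359.PE
open scoped Classical

variable {β γ M M' : Type*}

lemma mu_avg {α : Type} (S : Finset α) (f : α → β) (a b : α → ℕ) :
    (∑ u ∈ S, mu (cl S f u) a b) / S.card = mu S a b := by
  unfold mu
  congr 1
  exact avg_cl S f fun g => Real.log (1 + min (a g) (b g) : ℕ)

/-- adding a coordinate -/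
theorem stepDep {α : Type} {ε C : ℝ} (hε : 0 ≤ ε) (hC : 0 ≤ C)
    (hcell : ∀ (G : Finset α), G.Nonempty → ∀ a b : α → ℕ,
      loss G a b ≤ ε * (h G a + h G b) + C * mi G a b + C * mu G a b)
    (S : Finset α) (hS : S.Nonempty) (F : α → M) (F' : α → M') (R : α → β) (x y : α → ℕ)
    (hR : ∀ u ∈ S, ∀ v ∈ S, (F u, F' u) = (F v, F' v) → R u = R v) :
    (h S (fun u => ((F u, F' u), (x u, y u))) - h S (fun u => (F u, F' u))) -
      (h S (fun u => (R u, x u + y u)) - h S R) ≤
      ε * ((h S (fun u => (F u, x u)) - h S F) + (h S (fun u => (F' u, y u)) - h S F')) +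
      C * ((h S (fun u => (F u, x u)) - h S F) + (h S (fun u => (F' u, y u)) - h S F') -
        (h S (fun u => ((F u, F' u), (x u, y u))) - h S (fun u => (F u, F' u)))) +
      C * mu S x y := by
  have hN : (0 : ℝ) < S.card := by exact_mod_cast card_pos.2 hS
  have h1 := submod S R (fun u => (F u, F' u)) (fun u => x u + y u) hR
  have h2 := submod S F (fun u => (F u, F' u)) x (fun u _ v _ huv => (Prod.mk.inj huv).1)
  have h3 := submod S F' (fun u => (F u, F' u)) y (fun u _ v _ huv => (Prod.mk.inj huv).2)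
  have c1 := chain S (fun u => (F u, F' u)) (fun u => x u + y u)
  have c2 := chain S (fun u => (F u, F' u)) x
  have c3 := chain S (fun u => (F u, F' u)) y
  have c4 := chain S (fun u => (F u, F' u)) (fun u => (x u, y u))
  have c5 := mu_avg S (fun u => (F u, F' u)) x y
  have h4 : ∀ u ∈ S, h (cl S (fun u => (F u, F' u)) u) (fun u => (x u, y u)) -
      h (cl S (fun u => (F u, F' u)) u) (fun u => x u + y u) ≤
      ε * (h (cl S (fun u => (F u, F' u)) u) x + h (cl S (fun u => (F u, F' u)) u) y) +
      C * (h (cl S (fun u => (F u, F' u)) u) x + h (cl S (fun u => (F u, F' u)) u) y -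
        h (cl S (fun u => (F u, F' u)) u) (fun u => (x u, y u))) +
      C * mu (cl S (fun u => (F u, F' u)) u) x y := by
    intro u hu
    exact hcell _ ⟨u, mem_cl.2 ⟨hu, rfl⟩⟩ x y
  have h5 := sum_le_sum h4
  rw [sum_sub_distrib, sum_add_distrib, sum_add_distrib, ← mul_sum, ← mul_sum, ← mul_sum,
    sum_sub_distrib, sum_add_distrib] at h5
  have h6 := div_le_div_of_nonneg_right h5 hN.le
  rw [sub_div, add_div, add_div, mul_div_assoc, mul_div_assoc, mul_div_assoc, sub_div, add_div,
    ← c1, ← c2, ← c3, ← c4, c5] at h6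
  have h7 : ε * ((h S (fun u => ((F u, F' u), x u)) - h S (fun u => (F u, F' u))) +
      (h S (fun u => ((F u, F' u), y u)) - h S (fun u => (F u, F' u)))) ≤
      ε * ((h S (fun u => (F u, x u)) - h S F) + (h S (fun u => (F' u, y u)) - h S F')) :=
    mul_le_mul_of_nonneg_left (by linarith) hε
  have h8 : C * ((h S (fun u => ((F u, F' u), x u)) - h S (fun u => (F u, F' u))) +
      (h S (fun u => ((F u, F' u), y u)) - h S (fun u => (F u, F' u))) -
      (h S (fun u => ((F u, F' u), (x u, y u))) - h S (fun u => (F u, F' u)))) ≤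
      C * ((h S (fun u => (F u, x u)) - h S F) + (h S (fun u => (F' u, y u)) - h S F') -
        (h S (fun u => ((F u, F' u), (x u, y u))) - h S (fun u => (F u, F' u)))) :=
    mul_le_mul_of_nonneg_left (by linarith) hC
  linarith

/-- **Dependent vectors.** -/
theorem vecDep {α ι : Type} {ε C : ℝ} (hε : 0 ≤ ε) (hC : 0 ≤ C)
    (hcell : ∀ (G : Finset α), G.Nonempty → ∀ a b : α → ℕ,
      loss G a b ≤ ε * (h G a + h G b) + C * mi G a b + C * mu G a b)
    (S : Finset α) (hS : S.Nonempty) (A B : α → ι → ℕ) (T : Finset ι) :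
    h S (fun u => (mk T A u, mk T B u)) - h S (mk T fun u p => A u p + B u p) ≤
      ε * (h S (mk T A) + h S (mk T B)) +
      C * (h S (mk T A) + h S (mk T B) - h S (fun u => (mk T A u, mk T B u))) +
      C * ∑ p ∈ T, mu S (fun u => A u p) (fun u => B u p) := by
  induction T using Finset.induction_on with
  | empty =>
    have e0 : ∀ (X : α → ι → ℕ) (u v : α), mk ∅ X u = mk ∅ X v := by
      intro X u v
      rw [mk_eq_iff]
      intro p hp
      exact absurd hp (notMem_empty _)
    have e1 : h S (fun u => (mk ∅ A u, mk ∅ B u)) = 0 :=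
      h_const _ _ fun x _ y _ => by rw [e0 A x y, e0 B x y]
    have e2 : h S (mk ∅ A) = 0 := h_const _ _ fun x _ y _ => e0 A x y
    have e3 : h S (mk ∅ B) = 0 := h_const _ _ fun x _ y _ => e0 B x y
    have e4 := h_nonneg S (mk (∅ : Finset ι) fun u p => A u p + B u p)
    rw [e1, e2, e3, sum_empty]
    linarith
  | insert p T hp ih =>
    have st := stepDep hε hC hcell S hS (mk T A) (mk T B) (mk T fun u p => A u p + B u p)
      (fun u => A u p) (fun u => B u p) (by
        intro u _ v _ huv
        rw [Prod.mk.injEq, mk_eq_iff, mk_eq_iff] at huv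
        rw [mk_eq_iff]
        intro q hq
        rw [huv.1 q hq, huv.2 q hq])
    have e1 : h S (fun u => (mk (insert p T) A u, mk (insert p T) B u)) =
        h S (fun u => ((mk T A u, mk T B u), (A u p, B u p))) := by
      refine h_congr fun x _ y _ => ?_
      rw [Prod.mk.injEq, Prod.mk.injEq, Prod.mk.injEq, Prod.mk.injEq, mk_eq_iff, mk_eq_iff,
        mk_eq_iff, mk_eq_iff]
      constructor
      · rintro ⟨h1, h2⟩
        exact ⟨⟨fun q hq => h1 q (mem_insert_of_mem hq), fun q hq => h2 q (mem_insert_of_mem hq)⟩,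
          h1 p (mem_insert_self _ _), h2 p (mem_insert_self _ _)⟩
      · rintro ⟨⟨h1, h2⟩, h3, h4⟩
        refine ⟨fun q hq => ?_, fun q hq => ?_⟩
        · rcases mem_insert.1 hq with rfl | h5
          · exact h3
          · exact h1 q h5
        · rcases mem_insert.1 hq with rfl | h5
          · exact h4
          · exact h2 q h5
    rw [e1, h_mk_insert, h_mk_insert, h_mk_insert, sum_insert hp]
    linarith

end Pool.Agent.R483.GC
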