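import Mathlib
import Pool.Agent.R483.GC.Chain
import Pool.Agent.Y359.PE.Prod

/-!
# Restricted products of sets of integers and common divisors
-/

set_option autoImplicit false

namespace Pool.Agent.R483.GC

open Finset Pool.Agent.Y359.PE
open scoped Classical

/-- the number of the common divisors -/
def tau (s : ℤ × ℤ) : ℕ := (Int.gcd s.1 s.2).divisors.card

lemma tau_pos {s : ℤ × ℤ} (h : s.1 ≠ 0) : 0 < tau s := by
  unfold tau
  refine card_pos.2 ⟨1, ?_⟩
  rw [Nat.mem_divisors]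
  exact ⟨one_dvd _, fun h0 => h (Int.gcd_eq_zero_iff.1 h0).1⟩

/-- the valuations of the first component -/
def fA (s : ℤ × ℤ) (p : ℕ) : ℕ := fa s.1 p
/-- the valuations of the second component -/
def fB (s : ℤ × ℤ) (p : ℕ) : ℕ := fa s.2 p

lemma log_tau {s : ℤ × ℤ} (h1 : s.1 ≠ 0) (h2 : s.2 ≠ 0) (T : Finset ℕ)
    (hT : ∀ p ∈ (s.1).natAbs.primeFactors, p ∈ T) :
    ∑ p ∈ T, Real.log (1 + min (fA s p) (fB s p) : ℕ) = Real.log (tau s) := by
  have hg : Int.gcd s.1 s.2 ≠ 0 := fun h0 => h1 (Int.gcd_eq_zero_iff.1 h0).1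
  have hfac : ∀ p, (Int.gcd s.1 s.2).factorization p = min (fA s p) (fB s p) := by
    intro p
    rw [Int.gcd_eq_natAbs, Nat.factorization_gcd (Int.natAbs_ne_zero.2 h1)
      (Int.natAbs_ne_zero.2 h2)]
    rfl
  unfold tau
  rw [Nat.card_divisors hg]
  have hsub : (Int.gcd s.1 s.2).primeFactors ⊆ T := by
    intro p hp
    refine hT p ?_
    rw [Int.gcd_eq_natAbs] at hp
    exact Nat.primeFactors_mono (Nat.gcd_dvd_left _ _) (Int.natAbs_ne_zero.2 h1) hp
  rw [Nat.cast_prod, Real.log_prod (fun p _ => by positivity)]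
  symm
  refine (sum_subset hsub ?_).trans (sum_congr rfl fun p _ => ?_)
  · intro p _ hp
    have h3 : (Int.gcd s.1 s.2).factorization p = 0 := by
      rw [← Finsupp.notMem_support_iff, Nat.support_factorization]
      exact hp
    rw [h3]
    simp
  · rw [hfac, add_comm]

lemma fc_le_four (E : Finset (ℤ × ℤ)) (hE : ∀ s ∈ E, s.1 ≠ 0 ∧ s.2 ≠ 0) (T : Finset ℕ)
    (hT : ∀ s ∈ E, ∀ p, p ∉ T → fa s.1 p = 0 ∧ fa s.2 p = 0) {s : ℤ × ℤ} (hs : s ∈ E) :
    fc E (fun u => (mk T fA u, mk T fB u)) s ≤ 4 := by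
  unfold fc
  have h1 : cl E (fun u => (mk T fA u, mk T fB u)) s ⊆
      ({s.1, -s.1} : Finset ℤ) ×ˢ ({s.2, -s.2} : Finset ℤ) := by
    intro u hu
    rw [mem_cl, Prod.mk.injEq, mk_eq_iff, mk_eq_iff] at hu
    obtain ⟨huE, hA, hB⟩ := hu
    have e1 : u.1.natAbs = s.1.natAbs := by
      refine Nat.eq_of_factorization_eq (Int.natAbs_ne_zero.2 (hE u huE).1)
        (Int.natAbs_ne_zero.2 (hE s hs).1) fun p => ?_
      by_cases hp : p ∈ T
      · exact hA p hp
      · exact ((hT u huE p hp).1).trans ((hT s hs p hp).1).symm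
    have e2 : u.2.natAbs = s.2.natAbs := by
      refine Nat.eq_of_factorization_eq (Int.natAbs_ne_zero.2 (hE u huE).2)
        (Int.natAbs_ne_zero.2 (hE s hs).2) fun p => ?_
      by_cases hp : p ∈ T
      · exact hB p hp
      · exact ((hT u huE p hp).2).trans ((hT s hs p hp).2).symm
    rw [mem_product, mem_insert, mem_singleton, mem_insert, mem_singleton]
    exact ⟨Int.natAbs_eq_natAbs_iff.1 e1, Int.natAbs_eq_natAbs_iff.1 e2⟩
  refine (card_le_card h1).trans ?_
  rw [card_product]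
  calc _ ≤ 2 * 2 := Nat.mul_le_mul card_le_two card_le_two
    _ = 4 := by norm_num

/-- **The main inequality in logarithmic form.** -/
theorem mainLog (ε : ℝ) (hε : 0 < ε) (hε1 : ε ≤ 1) : ∃ C : ℝ, 1 ≤ C ∧
    ∀ X Y : Finset ℤ, (0 : ℤ) ∉ X → (0 : ℤ) ∉ Y → ∀ E ⊆ X ×ˢ Y, E.Nonempty →
      Real.log E.card - Real.log 4 - Real.log ((E.image fun s => s.1 * s.2).card) ≤
      ε * (Real.log X.card + Real.log Y.card) +
      C * (Real.log X.card + Real.log Y.card - (Real.log E.card - Real.log 4)) +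
      C * ((∑ s ∈ E, Real.log (tau s)) / E.card) := by
  obtain ⟨C, hC1, hcell⟩ := cell ε hε hε1
  refine ⟨C, hC1, fun X Y hX hY E hEXY hE => ?_⟩
  have hC : 0 ≤ C := by linarith
  have hN : (0 : ℝ) < E.card := by exact_mod_cast card_pos.2 hE
  have hE0 : ∀ s ∈ E, s.1 ≠ 0 ∧ s.2 ≠ 0 := by
    intro s hs
    have h1 := mem_product.1 (hEXY hs)
    exact ⟨fun h => hX (h ▸ h1.1), fun h => hY (h ▸ h1.2)⟩
  set T : Finset ℕ := pr X ∪ pr Y with hTd
  have hT : ∀ s ∈ E, ∀ p, p ∉ T → fa s.1 p = 0 ∧ fa s.2 p = 0 := by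
    intro s hs p hp
    rw [hTd, mem_union, not_or] at hp
    have h1 := mem_product.1 (hEXY hs)
    exact ⟨fa_eq_zero h1.1 hp.1, fa_eq_zero h1.2 hp.2⟩
  have hmain := vecDep hε.le hC (fun G hG a b => hcell (ℤ × ℤ) G hG a b) E hE fA fB T
  -- the joint entropy
  have hj := h_ge_short E E hE (fun u => (mk T fA u, mk T fB u)) (Subset.refl _) (F := 4)
    (fun s hs => by exact_mod_cast fc_le_four E hE0 T hT hs)
  rw [div_self hN.ne', one_mul] at hj
  -- the marginals
  have hXA : h E (mk T fA) ≤ Real.log X.card := by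
    refine (h_le_log hE _).trans (Real.log_le_log ?_ ?_)
    · exact_mod_cast card_pos.2 (hE.image _)
    · have h1 : E.image (mk T fA) ⊆ X.image fun x => mk T (fun s p => fa s p) x := by
        intro v hv
        obtain ⟨s, hs, rfl⟩ := mem_image.1 hv
        exact mem_image.2 ⟨s.1, (mem_product.1 (hEXY hs)).1, rfl⟩
      exact_mod_cast (card_le_card h1).trans card_image_le
  have hYB : h E (mk T fB) ≤ Real.log Y.card := by
    refine (h_le_log hE _).trans (Real.log_le_log ?_ ?_)
    · exact_mod_cast card_pos.2 (hE.image _)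
    · have h1 : E.image (mk T fB) ⊆ Y.image fun x => mk T (fun s p => fa s p) x := by
        intro v hv
        obtain ⟨s, hs, rfl⟩ := mem_image.1 hv
        exact mem_image.2 ⟨s.2, (mem_product.1 (hEXY hs)).2, rfl⟩
      exact_mod_cast (card_le_card h1).trans card_image_le
  -- the products
  have hP : h E (mk T fun u p => fA u p + fB u p) ≤
      Real.log ((E.image fun s => s.1 * s.2).card) := by
    refine (h_le_log hE _).trans (Real.log_le_log ?_ ?_)
    · exact_mod_cast card_pos.2 (hE.image _)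
    · have h1 : E.image (mk T fun u p => fA u p + fB u p) ⊆
          (E.image fun s => s.1 * s.2).image fun x => mk T (fun s p => fa s p) x := by
        intro v hv
        obtain ⟨s, hs, rfl⟩ := mem_image.1 hv
        refine mem_image.2 ⟨s.1 * s.2, mem_image.2 ⟨s, hs, rfl⟩, ?_⟩
        funext p
        unfold Pool.Agent.Y359.PE.mk
        split_ifs with hp
        · exact fa_mul (hE0 s hs).1 (hE0 s hs).2 p
        · rfl
      exact_mod_cast (card_le_card h1).trans card_image_le
  -- the common divisors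
  have hmu : ∑ p ∈ T, mu E (fun u => fA u p) (fun u => fB u p) =
      (∑ s ∈ E, Real.log (tau s)) / E.card := by
    unfold mu
    rw [← sum_div, sum_comm]
    congr 1
    refine sum_congr rfl fun s hs => log_tau (hE0 s hs).1 (hE0 s hs).2 T fun p hp => ?_
    rw [hTd, mem_union]
    exact Or.inl (mem_biUnion.2 ⟨s.1, (mem_product.1 (hEXY hs)).1, hp⟩)
  rw [hmu] at hmain
  have k1 : ε * (h E (mk T fA) + h E (mk T fB)) ≤ ε * (Real.log X.card + Real.log Y.card) :=
    mul_le_mul_of_nonneg_left (by linarith) hε.le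
  have k2 : C * (h E (mk T fA) + h E (mk T fB) - h E (fun u => (mk T fA u, mk T fB u))) ≤
      C * (Real.log X.card + Real.log Y.card - (Real.log E.card - Real.log 4)) :=
    mul_le_mul_of_nonneg_left (by linarith) hC
  linarith

end Pool.Agent.R483.GC
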