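import Mathlib
import Pool.Agent.R483.GC.Ints

/-!
# Restricted `k`-fold products
-/

set_option autoImplicit false

namespace Pool.Agent.R483.GC

open Finset Pool.Agent.Y359.PE
open scoped Classical

/-- valuations of the `i`-th component -/
def vv {k : ℕ} (i : ℕ) (u : Fin k → ℤ) (p : ℕ) : ℕ := if h : i < k then fa (u ⟨i, h⟩) p else 0

/-- valuations of the product of the components before `j` -/
def vp {k : ℕ} (j : ℕ) (u : Fin k → ℤ) (p : ℕ) : ℕ := ∑ i ∈ range j, vv i u p

/-- the joint vector of the components before `j` -/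
noncomputable def jt {k : ℕ} (T : Finset ℕ) (j : ℕ) (u : Fin k → ℤ) : ℕ → ℕ → ℕ :=
  fun i => if i < j then mk T (vv i) u else 0

lemma jt_eq_iff {k : ℕ} {T : Finset ℕ} {j : ℕ} {u v : Fin k → ℤ} :
    jt T j u = jt T j v ↔ ∀ i < j, mk T (vv i) u = mk T (vv i) v := by
  constructor
  · intro h i hi
    have := congrFun h i
    simpa [jt, hi] using this
  · intro h
    funext i
    unfold jt
    split_ifs with hi
    · exact h i hi
    · rfl

lemma log_min_sum (s : Finset ℕ) (a : ℕ → ℕ) (b : ℕ) :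
    Real.log (1 + min (∑ i ∈ s, a i) b : ℕ) ≤ ∑ i ∈ s, Real.log (1 + min (a i) b : ℕ) := by
  rw [← Real.log_prod (fun i _ => by positivity)]
  refine Real.log_le_log (by positivity) ?_
  have h : 1 + min (∑ i ∈ s, a i) b ≤ ∏ i ∈ s, (1 + min (a i) b) := by
    induction s using Finset.induction_on with
    | empty => simp
    | insert i s hi ih =>
      rw [sum_insert hi, prod_insert hi]
      have h1 : 1 + min (a i + ∑ j ∈ s, a j) b ≤ (1 + min (a i) b) * (1 + min (∑ j ∈ s, a j) b) := by
        have h2 : min (a i + ∑ j ∈ s, a j) b ≤ min (a i) b + min (∑ j ∈ s, a j) b := by omega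
        nlinarith [Nat.zero_le (min (a i) b * min (∑ j ∈ s, a j) b)]
      exact h1.trans (Nat.mul_le_mul_left _ ih)
  exact_mod_cast h

/-- the mean over `E` of the logarithm of the number of common divisors of two components -/
noncomputable def ell {k : ℕ} (E : Finset (Fin k → ℤ)) (T : Finset ℕ) (i j : ℕ) : ℝ :=
  ∑ p ∈ T, mu E (fun u => vv i u p) (fun u => vv j u p)

lemma ell_nonneg {k : ℕ} (E : Finset (Fin k → ℤ)) (T : Finset ℕ) (i j : ℕ) : 0 ≤ ell E T i j :=
  sum_nonneg fun _ _ => mu_nonneg _ _ _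

/-- the entropies -/
theorem kfoldLog {k : ℕ} {ε C : ℝ} (hε : 0 ≤ ε) (hε1 : ε ≤ 1) (hC : 0 ≤ C)
    (hcell : ∀ (G : Finset (Fin k → ℤ)), G.Nonempty → ∀ a b : (Fin k → ℤ) → ℕ,
      loss G a b ≤ ε * (h G a + h G b) + C * mi G a b + C * mu G a b)
    (E : Finset (Fin k → ℤ)) (hE : E.Nonempty) (T : Finset ℕ) (j : ℕ) :
    0 ≤ ∑ i ∈ range j, h E (mk T (vv i)) - h E (jt T j) ∧
    (1 - ε) ^ j * ∑ i ∈ range j, h E (mk T (vv i)) -
      (C + 1) * (∑ i ∈ range j, h E (mk T (vv i)) - h E (jt T j)) -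
      C * ∑ b ∈ range j, ∑ i ∈ range b, ell E T i b ≤ h E (mk T (vp j)) := by
  induction j with
  | zero =>
    have e1 : h E (jt T 0) = 0 := h_const _ _ fun x _ y _ => by
      rw [jt_eq_iff]
      intro i hi
      exact absurd hi (Nat.not_lt_zero _)
    have e2 := h_nonneg E (mk T (vp (k := k) 0))
    simp [e1, e2]
  | succ j ih =>
    obtain ⟨ih1, ih2⟩ := ih
    have hvec := vecDep hε hC hcell E hE (vp j) (vv j) T
    have e1 : (fun (u : Fin k → ℤ) (p : ℕ) => vp j u p + vv j u p) = vp (j + 1) := by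
      funext u p
      unfold vp
      rw [sum_range_succ]
    rw [e1] at hvec
    -- the joint vector
    have e2 : h E (jt T (j + 1)) = h E (fun u => (jt T j u, mk T (vv j) u)) := by
      refine h_congr fun x _ y _ => ?_
      rw [Prod.mk.injEq, jt_eq_iff, jt_eq_iff]
      constructor
      · intro hh
        exact ⟨fun i hi => hh i (by omega), hh j (by omega)⟩
      · rintro ⟨h1, h2⟩ i hi
        rcases Nat.lt_succ_iff_lt_or_eq.1 hi with h3 | h3
        · exact h1 i h3
        · rw [h3]
          exact h2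
    have hmi := mi_nonneg E hE (jt T j) (mk T (vv j))
    unfold mi at hmi
    rw [← e2] at hmi
    have hsub := submod E (mk T (vp j)) (jt T j) (mk T (vv j)) (by
      intro x _ y _ hxy
      rw [jt_eq_iff] at hxy
      rw [mk_eq_iff]
      intro p hp
      unfold vp
      refine sum_congr rfl fun i hi => ?_
      exact (mk_eq_iff.1 (hxy i (mem_range.1 hi))) p hp)
    rw [← e2] at hsub
    -- the common divisors
    have hmu : ∑ p ∈ T, mu E (fun u => vp j u p) (fun u => vv j u p) ≤
        ∑ i ∈ range j, ell E T i j := by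
      unfold ell
      rw [sum_comm]
      refine sum_le_sum fun p _ => ?_
      unfold mu
      rw [← sum_div, sum_comm]
      refine div_le_div_of_nonneg_right (sum_le_sum fun u _ => ?_) (by positivity)
      exact log_min_sum (range j) (fun i => vv i u p) (vv j u p)
    have hs1 : ∑ i ∈ range (j + 1), h E (mk T (vv i)) =
        ∑ i ∈ range j, h E (mk T (vv i)) + h E (mk T (vv j)) := sum_range_succ _ _
    have hs2 : ∑ b ∈ range (j + 1), ∑ i ∈ range b, ell E T i b =
        ∑ b ∈ range j, ∑ i ∈ range b, ell E T i b + ∑ i ∈ range j, ell E T i j :=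
      sum_range_succ _ _
    rw [hs1, hs2]
    set Sv := ∑ i ∈ range j, h E (mk T (vv i)) with hSv
    set L := ∑ b ∈ range j, ∑ i ∈ range b, ell E T i b with hL
    set L' := ∑ i ∈ range j, ell E T i j with hL'
    have hL0 : 0 ≤ L := sum_nonneg fun b _ => sum_nonneg fun i _ => ell_nonneg _ _ _ _
    set V := h E (mk T (vv j)) with hV
    set H := h E (mk T (vp j)) with hH
    set J := h E (fun u => (mk T (vp j) u, mk T (vv j) u)) with hJ
    set jj := h E (jt T j) with hjj
    set jj1 := h E (jt T (j + 1)) with hjj1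
    have hV0 : 0 ≤ V := h_nonneg _ _
    generalize h E (mk T (vp (j + 1))) = H1 at hvec ⊢
    generalize ∑ p ∈ T, mu E (fun u => vp j u p) (fun u => vv j u p) = M at hvec hmu
    clear_value Sv L L' V H J jj jj1
    clear hcell e1 e2 hs1 hs2
    refine ⟨by linarith, ?_⟩
    have hCmu : C * M ≤ C * L' :=
      mul_le_mul_of_nonneg_left hmu hC
    have k1 : (1 - ε) * ((1 - ε) ^ j * Sv - (C + 1) * (Sv - jj) - C * L) ≤ (1 - ε) * H :=
      mul_le_mul_of_nonneg_left ih2 (by linarith)
    have k2 : (1 - ε) ^ (j + 1) * V ≤ (1 - ε) * V := by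
      refine mul_le_mul_of_nonneg_right ?_ hV0
      calc (1 - ε) ^ (j + 1) ≤ (1 - ε) ^ 1 :=
            pow_le_pow_of_le_one (by linarith) (by linarith) (by omega)
        _ = 1 - ε := pow_one _
    have k3 : 0 ≤ ε * ((C + 1) * (Sv - jj) + C * L) :=
      mul_nonneg hε (add_nonneg (mul_nonneg (by linarith) ih1) (mul_nonneg hC hL0))
    have k4 : (C + 1) * (H + V - J) ≤ (C + 1) * (jj + V - jj1) :=
      mul_le_mul_of_nonneg_left (by linarith) (by linarith)
    have e3 : (1 - ε) ^ (j + 1) * (Sv + V) = (1 - ε) * ((1 - ε) ^ j * Sv) +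
        (1 - ε) ^ (j + 1) * V := by ring
    rw [e3]
    generalize (1 - ε) ^ (j + 1) * V = q at k2 ⊢
    generalize (1 - ε) ^ j * Sv = q' at k1 ⊢
    linarith

end Pool.Agent.R483.GC
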