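import Mathlib
import Pool.Agent.R483.GC.KFold

/-!
# Restricted `k`-fold products of integers
-/

set_option autoImplicit false

namespace Pool.Agent.R483.GC

open Finset Pool.Agent.Y359.PE
open scoped Classical

/-- the mean of the sum over the pairs of components of the logarithm of the number of common
divisors -/
noncomputable def Lam {k : ℕ} (E : Finset (Fin k → ℤ)) : ℝ :=
  (∑ u ∈ E, ∑ j : Fin k, ∑ i ∈ univ.filter (fun i : Fin k => i < j),
    Real.log ((Int.gcd (u i) (u j)).divisors.card : ℝ)) / E.card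

lemma Lam_nonneg {k : ℕ} (E : Finset (Fin k → ℤ)) : 0 ≤ Lam E := by
  unfold Lam
  refine div_nonneg (sum_nonneg fun u _ => sum_nonneg fun j _ => sum_nonneg fun i _ =>
    Real.log_natCast_nonneg _) (by positivity)

lemma fc_jt_le {k : ℕ} (E : Finset (Fin k → ℤ)) (hE : ∀ u ∈ E, ∀ i, u i ≠ 0) (T : Finset ℕ)
    (hT : ∀ u ∈ E, ∀ i, ∀ p, p ∉ T → fa (u i) p = 0) {u : Fin k → ℤ} (hu : u ∈ E) :
    fc E (jt T k) u ≤ 2 ^ k := by
  unfold fc
  have h1 : cl E (jt T k) u ⊆ Fintype.piFinset fun i => ({u i, -u i} : Finset ℤ) := by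
    intro v hv
    rw [mem_cl, jt_eq_iff] at hv
    obtain ⟨hvE, hA⟩ := hv
    rw [Fintype.mem_piFinset]
    intro i
    have e1 : (v i).natAbs = (u i).natAbs := by
      refine Nat.eq_of_factorization_eq (Int.natAbs_ne_zero.2 (hE v hvE i))
        (Int.natAbs_ne_zero.2 (hE u hu i)) fun p => ?_
      by_cases hp : p ∈ T
      · have h2 := (mk_eq_iff.1 (hA i i.2)) p hp
        unfold vv at h2
        rw [dif_pos i.2, dif_pos i.2] at h2
        exact h2
      · exact (hT v hvE i p hp).trans (hT u hu i p hp).symm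
    rw [mem_insert, mem_singleton]
    exact Int.natAbs_eq_natAbs_iff.1 e1
  refine (card_le_card h1).trans ?_
  rw [Fintype.card_piFinset]
  calc ∏ i : Fin k, (({u i, -u i} : Finset ℤ)).card ≤ ∏ _i : Fin k, 2 :=
        prod_le_prod' fun i _ => card_le_two
    _ = 2 ^ k := by simp

lemma ell_eq {k : ℕ} (E : Finset (Fin k → ℤ)) (hE : ∀ u ∈ E, ∀ i, u i ≠ 0) (T : Finset ℕ)
    (hT : ∀ u ∈ E, ∀ i, ∀ p, p ∉ T → fa (u i) p = 0) (i j : Fin k) :
    ell E T i j = (∑ u ∈ E, Real.log ((Int.gcd (u i) (u j)).divisors.card : ℝ)) / E.card := by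
  unfold ell mu
  rw [← sum_div, sum_comm]
  congr 1
  refine sum_congr rfl fun u hu => ?_
  have h1 := log_tau (s := (u i, u j)) (hE u hu i) (hE u hu j) T (by
    intro p hp
    by_contra hcon
    have h2 := hT u hu i p hcon
    unfold fa at h2
    rw [← Finsupp.notMem_support_iff, Nat.support_factorization] at h2
    exact h2 hp)
  unfold tau at h1
  rw [← h1]
  refine sum_congr rfl fun p _ => ?_
  have e1 : vv (i : ℕ) u p = fa (u i) p := by
    unfold vv
    rw [dif_pos i.2]
  have e2 : vv (j : ℕ) u p = fa (u j) p := by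
    unfold vv
    rw [dif_pos j.2]
  show Real.log (1 + min (vv (i : ℕ) u p) (vv (j : ℕ) u p) : ℕ) = _
  rw [e1, e2]
  rfl

lemma sum_ell {k : ℕ} (E : Finset (Fin k → ℤ)) (hE : ∀ u ∈ E, ∀ i, u i ≠ 0) (T : Finset ℕ)
    (hT : ∀ u ∈ E, ∀ i, ∀ p, p ∉ T → fa (u i) p = 0) :
    ∑ b ∈ range k, ∑ i ∈ range b, ell E T i b = Lam E := by
  rw [sum_range]
  unfold Lam
  rw [sum_comm, sum_div]
  refine sum_congr rfl fun j _ => ?_
  rw [sum_comm, sum_div]
  have h1 : range (j : ℕ) = (univ.filter (fun i : Fin k => i < j)).image (fun i : Fin k => (i : ℕ)) := by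
    ext a
    rw [mem_range, mem_image]
    constructor
    · intro ha
      exact ⟨⟨a, ha.trans j.2⟩, mem_filter.2 ⟨mem_univ _, ha⟩, rfl⟩
    · rintro ⟨i, hi, rfl⟩
      exact (mem_filter.1 hi).2
  rw [h1, sum_image (fun a _ b _ hab => Fin.ext hab)]
  exact sum_congr rfl fun i _ => ell_eq E hE T hT i j

/-- **The main theorem in logarithmic form.** -/
theorem kmainLog (k : ℕ) (hk : 1 ≤ k) (ε : ℝ) (hε : 0 < ε) (hε1 : ε ≤ 1) : ∃ C : ℝ, 1 ≤ C ∧
    ∀ X : Fin k → Finset ℤ, (∀ i, (0 : ℤ) ∉ X i) → ∀ E ⊆ Fintype.piFinset X, E.Nonempty →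
      (1 - ε) * Real.log (∏ i, (X i).card : ℕ) -
        C * (Real.log (∏ i, (X i).card : ℕ) - Real.log E.card) - C * Lam E - C * (k * Real.log 2) ≤
      Real.log ((E.image fun u => ∏ i, u i).card) := by
  have hkr : (1 : ℝ) ≤ k := by exact_mod_cast hk
  set ε' := ε / k with hε'
  have hε'0 : 0 < ε' := by positivity
  have hε'1 : ε' ≤ 1 := by
    rw [hε', div_le_one (by linarith)]
    linarith
  obtain ⟨C, hC1, hcell⟩ := cell ε' hε'0 hε'1
  have hC : 0 ≤ C := by linarith
  refine ⟨C + 2, by linarith, fun X hX E hEX hE => ?_⟩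
  have hN : (0 : ℝ) < E.card := by exact_mod_cast card_pos.2 hE
  have hEm : ∀ u ∈ E, ∀ i, u i ∈ X i := fun u hu i => Fintype.mem_piFinset.1 (hEX hu) i
  have hE0 : ∀ u ∈ E, ∀ i, u i ≠ 0 := fun u hu i h => hX i (h ▸ hEm u hu i)
  set T : Finset ℕ := univ.biUnion fun i => pr (X i) with hTd
  have hT : ∀ u ∈ E, ∀ i, ∀ p, p ∉ T → fa (u i) p = 0 := by
    intro u hu i p hp
    refine fa_eq_zero (hEm u hu i) fun h => hp ?_
    exact mem_biUnion.2 ⟨i, mem_univ _, h⟩
  obtain ⟨m1, m2⟩ := kfoldLog hε'0.le hε'1 hC (fun G hG a b => hcell (Fin k → ℤ) G hG a b) E hE T k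
  -- the joint entropy
  have hj := h_ge_short E E hE (jt T k) (Subset.refl _) (F := ((2 ^ k : ℕ) : ℝ))
    (fun u hu => by exact_mod_cast fc_jt_le E hE0 T hT hu)
  rw [div_self hN.ne', one_mul] at hj
  have hj2 : Real.log ((2 ^ k : ℕ) : ℝ) = k * Real.log 2 := by
    push_cast
    rw [Real.log_pow]
  rw [hj2] at hj
  -- the marginals
  have hXc : ∀ i : Fin k, h E (mk T (vv i)) ≤ Real.log (X i).card := by
    intro i
    refine (h_le_log hE _).trans (Real.log_le_log ?_ ?_)
    · exact_mod_cast card_pos.2 (hE.image _)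
    · have h1 : E.image (mk T (vv (i : ℕ))) ⊆ (X i).image fun x => mk T (fun s p => fa s p) x := by
        intro v hv
        obtain ⟨u, hu, rfl⟩ := mem_image.1 hv
        refine mem_image.2 ⟨u i, hEm u hu i, ?_⟩
        funext p
        unfold Pool.Agent.Y359.PE.mk
        split_ifs with hp
        · unfold vv
          rw [dif_pos i.2]
        · rfl
      exact_mod_cast (card_le_card h1).trans card_image_le
  have hXpos : ∀ i : Fin k, (0 : ℝ) < (X i).card := by
    intro i
    obtain ⟨u, hu⟩ := hE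
    exact_mod_cast card_pos.2 ⟨u i, hEm u hu i⟩
  have hsum : ∑ i ∈ range k, h E (mk T (vv i)) ≤ Real.log (∏ i, (X i).card : ℕ) := by
    rw [sum_range, Nat.cast_prod, Real.log_prod (fun i _ => (hXpos i).ne')]
    exact sum_le_sum fun i _ => hXc i
  -- the products
  have hP : h E (mk T (vp k)) ≤ Real.log ((E.image fun u => ∏ i, u i).card) := by
    refine (h_le_log hE _).trans (Real.log_le_log ?_ ?_)
    · exact_mod_cast card_pos.2 (hE.image _)
    · have h1 : E.image (mk T (vp k)) ⊆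
          (E.image fun u => ∏ i, u i).image fun x => mk T (fun s p => fa s p) x := by
        intro v hv
        obtain ⟨u, hu, rfl⟩ := mem_image.1 hv
        refine mem_image.2 ⟨∏ i, u i, mem_image.2 ⟨u, hu, rfl⟩, ?_⟩
        funext p
        unfold Pool.Agent.Y359.PE.mk
        split_ifs with hp
        · show fa (∏ i, u i) p = vp k u p
          rw [fa_prod u (hE0 u hu)]
          unfold vp
          rw [sum_range]
          refine sum_congr rfl fun i _ => ?_
          unfold vv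
          rw [dif_pos i.2]
        · rfl
      exact_mod_cast (card_le_card h1).trans card_image_le
  rw [sum_ell E hE0 T hT] at m2
  have hL := Lam_nonneg E
  have hbern : 1 - ε ≤ (1 - ε') ^ k := by
    have h1 := one_add_mul_le_pow (show (-2 : ℝ) ≤ -ε' by linarith) k
    have h2 : (k : ℝ) * ε' = ε := by
      rw [hε']
      field_simp
    rw [← sub_eq_add_neg] at h1
    linarith
  have hJ0 := h_nonneg E (jt T k)
  generalize h E (mk T (vp k)) = H at m2 hP
  generalize Real.log ((E.image fun u => ∏ i, u i).card : ℝ) = M at hP ⊢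
  generalize Real.log ((∏ i, (X i).card : ℕ) : ℝ) = N at hsum ⊢
  generalize ∑ i ∈ range k, h E (mk T (vv i)) = A at m1 m2 hsum
  generalize h E (jt T k) = J at m1 m2 hj hJ0
  generalize Real.log (E.card : ℝ) = e at hj ⊢
  generalize (k : ℝ) * Real.log 2 = l at hj ⊢
  generalize Lam E = Λ at m2 hL ⊢
  have hl : e ≤ N + l := by linarith
  have hA0 : e - l ≤ A := by linarith
  have n1 : (1 - ε) * (e - l) ≤ (1 - ε) * A := mul_le_mul_of_nonneg_left hA0 (by linarith)
  have n2 : (1 - ε) * A ≤ (1 - ε') ^ k * A :=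
    mul_le_mul_of_nonneg_right hbern (by linarith)
  have n3 : (C + 1) * (A - J) ≤ (C + 1) * (N - (e - l)) :=
    mul_le_mul_of_nonneg_left (by linarith) (by linarith)
  have n4 : 0 ≤ ε * (N - e + l) := mul_nonneg hε.le (by linarith)
  generalize (1 - ε') ^ k * A = q at m2 n2
  linarith

end Pool.Agent.R483.GC
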