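import Mathlib
import Pool.Agent.R483.GC.KInts
import Pool.Agent.R849.RF.Base

/-!
# Sets in which few pairs have many common divisors, times arbitrary sets
-/

set_option autoImplicit false

namespace Pool.Agent.R483.GC

open Finset Pool.Agent.Y359.PE Pool.Agent.R849.RF
open scoped Classical

lemma card_two_fixed {k : ℕ} (S : Finset ℤ) (i j : Fin k) (hij : i ≠ j) (a b : ℤ) :
    ((Fintype.piFinset fun _ : Fin k => S).filter fun u => u i = a ∧ u j = b).card *
      (S.card * S.card) ≤ S.card ^ k := by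
  have h1 : ((Fintype.piFinset fun _ : Fin k => S).filter fun u => u i = a ∧ u j = b) ⊆
      Fintype.piFinset fun l : Fin k => if l = i then {a} else if l = j then {b} else S := by
    intro u hu
    rw [mem_filter, Fintype.mem_piFinset] at hu
    rw [Fintype.mem_piFinset]
    intro l
    split_ifs with h2 h3
    · rw [h2, mem_singleton]
      exact hu.2.1
    · rw [h3, mem_singleton]
      exact hu.2.2
    · exact hu.1 l
  have h2 := card_le_card h1
  rw [Fintype.card_piFinset] at h2
  refine (Nat.mul_le_mul_right _ h2).trans (le_of_eq ?_)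
  have e1 : (∏ l : Fin k, if l = i then S.card else 1) = S.card := by
    rw [Finset.prod_ite_eq' univ i fun _ => S.card, if_pos (mem_univ _)]
  have e2 : (∏ l : Fin k, if l = j then S.card else 1) = S.card := by
    rw [Finset.prod_ite_eq' univ j fun _ => S.card, if_pos (mem_univ _)]
  calc _ = (∏ l : Fin k, (if l = i then ({a} : Finset ℤ) else if l = j then {b} else S).card) *
        ((∏ l : Fin k, if l = i then S.card else 1) * (∏ l : Fin k, if l = j then S.card else 1)) := by
        rw [e1, e2]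
    _ = ∏ _l : Fin k, S.card := by
        rw [← prod_mul_distrib, ← prod_mul_distrib]
        refine prod_congr rfl fun l _ => ?_
        by_cases h3 : l = i
        · rw [if_pos h3, if_pos h3, if_neg (fun h4 => hij (h3.symm.trans h4))]
          simp
        · rw [if_neg h3, if_neg h3]
          by_cases h4 : l = j
          · rw [if_pos h4, if_pos h4]
            simp
          · rw [if_neg h4, if_neg h4]
            simp
    _ = S.card ^ k := by simp

lemma card_bad {k : ℕ} (S : Finset ℤ) (P : ℤ × ℤ → Prop) (i j : Fin k) (hij : i ≠ j) :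
    ((Fintype.piFinset fun _ : Fin k => S).filter fun u => P (u i, u j)).card *
      (S.card * S.card) ≤ ((S ×ˢ S).filter P).card * S.card ^ k := by
  have h1 : ((Fintype.piFinset fun _ : Fin k => S).filter fun u => P (u i, u j)) ⊆
      ((S ×ˢ S).filter P).biUnion fun s =>
        (Fintype.piFinset fun _ : Fin k => S).filter fun u => u i = s.1 ∧ u j = s.2 := by
    intro u hu
    rw [mem_filter] at hu
    rw [mem_biUnion]
    have h2 := Fintype.mem_piFinset.1 hu.1
    exact ⟨(u i, u j), mem_filter.2 ⟨mem_product.2 ⟨h2 i, h2 j⟩, hu.2⟩,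
      mem_filter.2 ⟨hu.1, rfl, rfl⟩⟩
  have h2 := (card_le_card h1).trans card_biUnion_le
  refine (Nat.mul_le_mul_right _ h2).trans ?_
  rw [sum_mul]
  refine (sum_le_sum fun s _ => card_two_fixed S i j hij s.1 s.2).trans ?_
  rw [sum_const, smul_eq_mul]

/-- **`k`-fold products.** -/
theorem kfoldFew (k : ℕ) (hk : 1 ≤ k) (ε : ℝ) (hε : 0 < ε) (hε1 : ε ≤ 1) :
    ∃ η θ c : ℝ, 0 < η ∧ 0 < θ ∧ 0 < c ∧ ∀ S : Finset ℤ, S.Nonempty → (0 : ℤ) ∉ S →
      (((S ×ˢ S).filter fun s => (S.card : ℝ) ^ θ < (tau s : ℝ)).card : ℝ) ≤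
        η * (S.card : ℝ) ^ 2 →
      c * (S.card : ℝ) ^ ((k : ℝ) - ε) ≤ (pk k S).card := by
  have hkr : (1 : ℝ) ≤ k := by exact_mod_cast hk
  obtain ⟨C, hC1, hmain⟩ := kmainLog k hk (ε / (2 * k)) (by positivity) (by
    rw [div_le_one (by positivity)]
    linarith)
  set θ := ε / (2 * C * k ^ 2) with hθ
  have hθ0 : 0 < θ := by positivity
  refine ⟨1 / (2 * k ^ 2), θ, Real.exp (-(C * (k + 1))), by positivity, hθ0, Real.exp_pos _,
    fun S hS h0 hbad => ?_⟩
  have hn1 : (1 : ℝ) ≤ S.card := by exact_mod_cast card_pos.2 hS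
  set n : ℝ := (S.card : ℝ) with hn
  have hn0 : 0 < n := by linarith
  set L := Real.log n with hL
  have hL0 : 0 ≤ L := Real.log_nonneg hn1
  set W := Fintype.piFinset fun _ : Fin k => S with hW
  have hWc : (W.card : ℝ) = n ^ k := by
    rw [hW, Fintype.card_piFinset]
    simp [hn]
  set E := W.filter fun u => ∀ j : Fin k, ∀ i : Fin k, i < j → (tau (u i, u j) : ℝ) ≤ n ^ θ with hE
  -- the number of the good tuples
  have hcompl : ((W.filter fun u => ¬ ∀ j : Fin k, ∀ i : Fin k, i < j →
      (tau (u i, u j) : ℝ) ≤ n ^ θ).card : ℝ) ≤ n ^ k / 2 := by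
    have h1 : (W.filter fun u => ¬ ∀ j : Fin k, ∀ i : Fin k, i < j →
        (tau (u i, u j) : ℝ) ≤ n ^ θ) ⊆ ((univ : Finset (Fin k × Fin k)).filter
          fun s => s.1 ≠ s.2).biUnion fun s =>
          W.filter fun u => n ^ θ < (tau (u s.1, u s.2) : ℝ) := by
      intro u hu
      rw [mem_filter] at hu
      obtain ⟨hu1, hu2⟩ := hu
      push Not at hu2
      obtain ⟨j, i, hij, h2⟩ := hu2
      exact mem_biUnion.2 ⟨(i, j), mem_filter.2 ⟨mem_univ _, hij.ne⟩, mem_filter.2 ⟨hu1, h2⟩⟩
    have h2 : ∀ s ∈ (univ : Finset (Fin k × Fin k)).filter fun s => s.1 ≠ s.2,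
        ((W.filter fun u => n ^ θ < (tau (u s.1, u s.2) : ℝ)).card : ℝ) ≤
          1 / (2 * k ^ 2) * n ^ k := by
      intro s hs
      have h3 := card_bad S (fun t => n ^ θ < (tau t : ℝ)) s.1 s.2 (mem_filter.1 hs).2
      have h4 : ((W.filter fun u => n ^ θ < (tau (u s.1, u s.2) : ℝ)).card : ℝ) * (n * n) ≤
          ((S ×ˢ S).filter fun t => n ^ θ < (tau t : ℝ)).card * n ^ k := by
        rw [hn]
        exact_mod_cast h3
      have h5 : ((W.filter fun u => n ^ θ < (tau (u s.1, u s.2) : ℝ)).card : ℝ) * (n * n) ≤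
          (1 / (2 * k ^ 2) * n ^ k) * (n * n) := by
        refine h4.trans ?_
        calc (((S ×ˢ S).filter fun t => n ^ θ < (tau t : ℝ)).card : ℝ) * n ^ k ≤
            (1 / (2 * k ^ 2) * n ^ 2) * n ^ k := mul_le_mul_of_nonneg_right hbad (by positivity)
          _ = (1 / (2 * k ^ 2) * n ^ k) * (n * n) := by ring
      exact le_of_mul_le_mul_right h5 (by positivity)
    calc ((W.filter fun u => ¬ ∀ j : Fin k, ∀ i : Fin k, i < j →
        (tau (u i, u j) : ℝ) ≤ n ^ θ).card : ℝ)
        ≤ ∑ s ∈ (univ : Finset (Fin k × Fin k)).filter (fun s => s.1 ≠ s.2),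
          ((W.filter fun u => n ^ θ < (tau (u s.1, u s.2) : ℝ)).card : ℝ) := by
            exact_mod_cast (card_le_card h1).trans card_biUnion_le
      _ ≤ ∑ _s ∈ (univ : Finset (Fin k × Fin k)).filter (fun s => s.1 ≠ s.2),
          1 / (2 * (k : ℝ) ^ 2) * n ^ k := sum_le_sum h2
      _ = ((univ : Finset (Fin k × Fin k)).filter fun s => s.1 ≠ s.2).card *
          (1 / (2 * (k : ℝ) ^ 2) * n ^ k) := by rw [sum_const, nsmul_eq_mul]
      _ ≤ (k : ℝ) ^ 2 * (1 / (2 * (k : ℝ) ^ 2) * n ^ k) := by
            refine mul_le_mul_of_nonneg_right ?_ (by positivity)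
            have : ((univ : Finset (Fin k × Fin k)).filter fun s => s.1 ≠ s.2).card ≤ k ^ 2 := by
              refine (card_filter_le _ _).trans (le_of_eq ?_)
              rw [card_univ, Fintype.card_prod, Fintype.card_fin, sq]
            exact_mod_cast this
      _ = n ^ k / 2 := by
            field_simp
  have hEc : n ^ k / 2 ≤ (E.card : ℝ) := by
    have h1 : E.card + (W.filter fun u => ¬ ∀ j : Fin k, ∀ i : Fin k, i < j →
        (tau (u i, u j) : ℝ) ≤ n ^ θ).card = W.card := card_filter_add_card_filter_not _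
    have h2 : (E.card : ℝ) + ((W.filter fun u => ¬ ∀ j : Fin k, ∀ i : Fin k, i < j →
        (tau (u i, u j) : ℝ) ≤ n ^ θ).card : ℝ) = n ^ k := by
      rw [← hWc]
      exact_mod_cast h1
    linarith
  have hEpos : (0 : ℝ) < E.card := lt_of_lt_of_le (by positivity) hEc
  have hEne : E.Nonempty := card_pos.1 (by exact_mod_cast hEpos)
  have h1 := hmain (fun _ => S) (fun _ => h0) E (filter_subset _ _) hEne
  have hN : Real.log ((∏ _i : Fin k, S.card : ℕ) : ℝ) = k * L := by
    rw [prod_const, card_univ, Fintype.card_fin]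
    push_cast
    rw [Real.log_pow]
  rw [hN] at h1
  have hlogE : k * L - Real.log 2 ≤ Real.log E.card := by
    have h2 := Real.log_le_log (by positivity) hEc
    rwa [Real.log_div (by positivity) (by norm_num), Real.log_pow] at h2
  have hLam : Lam E ≤ k ^ 2 * (θ * L) := by
    unfold Lam
    rw [div_le_iff₀ hEpos]
    calc ∑ u ∈ E, ∑ j : Fin k, ∑ i ∈ univ.filter (fun i : Fin k => i < j),
        Real.log ((Int.gcd (u i) (u j)).divisors.card : ℝ)
        ≤ ∑ _u ∈ E, (k : ℝ) ^ 2 * (θ * L) := by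
          refine sum_le_sum fun u hu => ?_
          have hu2 := (mem_filter.1 hu).2
          have hu1 := Fintype.mem_piFinset.1 (mem_filter.1 hu).1
          calc ∑ j : Fin k, ∑ i ∈ univ.filter (fun i : Fin k => i < j),
              Real.log ((Int.gcd (u i) (u j)).divisors.card : ℝ)
              ≤ ∑ j : Fin k, ∑ _i ∈ univ.filter (fun i : Fin k => i < j), θ * L := by
                refine sum_le_sum fun j _ => sum_le_sum fun i hi => ?_
                have h3 := hu2 j i (mem_filter.1 hi).2
                have h4 : (0 : ℝ) < tau (u i, u j) := by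
                  exact_mod_cast tau_pos (s := (u i, u j)) (fun h => h0 (h ▸ hu1 i))
                have h5 := Real.log_le_log h4 h3
                rw [Real.log_rpow hn0] at h5
                exact h5
            _ ≤ ∑ _j : Fin k, (k : ℝ) * (θ * L) := by
                refine sum_le_sum fun j _ => ?_
                rw [sum_const, nsmul_eq_mul]
                refine mul_le_mul_of_nonneg_right ?_ (by positivity)
                have : (univ.filter fun i : Fin k => i < j).card ≤ k := by
                  refine (card_filter_le _ _).trans (le_of_eq ?_)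
                  rw [card_univ, Fintype.card_fin]
                exact_mod_cast this
            _ = (k : ℝ) ^ 2 * (θ * L) := by
                rw [sum_const, card_univ, Fintype.card_fin, nsmul_eq_mul]
                ring
      _ = (k : ℝ) ^ 2 * (θ * L) * E.card := by
          rw [sum_const, nsmul_eq_mul]
          ring
  have hMle : ((E.image fun u => ∏ i, u i).card : ℝ) ≤ (pk k S).card := by
    have : E.image (fun u => ∏ i, u i) ⊆ pk k S := image_subset_image (filter_subset _ _)
    exact_mod_cast card_le_card this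
  have hMpos : (0 : ℝ) < ((E.image fun u => ∏ i, u i).card : ℝ) := by
    exact_mod_cast card_pos.2 (hEne.image _)
  refine le_trans ?_ hMle
  have hlog2 : Real.log 2 ≤ 1 := by linarith [Real.log_two_lt_d9]
  have hlog20 : 0 ≤ Real.log 2 := Real.log_nonneg (by norm_num)
  have h2 : ((k : ℝ) - ε) * L - C * (k + 1) ≤ Real.log ((E.image fun u => ∏ i, u i).card) := by
    refine le_trans ?_ h1
    have e1 : ε / (2 * k) * (k * L) = ε / 2 * L := by field_simp
    have e2 : C * (k ^ 2 * (θ * L)) = ε / 2 * L := by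
      rw [hθ]
      field_simp
    have k1 : C * (k * L - Real.log E.card) ≤ C * Real.log 2 :=
      mul_le_mul_of_nonneg_left (by linarith) (by linarith)
    have k2 : C * Lam E ≤ C * (k ^ 2 * (θ * L)) := mul_le_mul_of_nonneg_left hLam (by linarith)
    have k3 : C * Real.log 2 + C * (k * Real.log 2) ≤ C * (k + 1) := by
      have : (k + 1) * Real.log 2 ≤ (k + 1) * 1 := mul_le_mul_of_nonneg_left hlog2 (by positivity)
      nlinarith
    have e3 : (1 - ε / (2 * k)) * (k * L) = k * L - ε / (2 * k) * (k * L) := by ring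
    rw [e3, e1]
    linarith
  have h3 := (Real.le_log_iff_exp_le hMpos).1 h2
  refine le_trans (le_of_eq ?_) h3
  rw [Real.rpow_def_of_pos hn0, ← Real.exp_add]
  congr 1
  rw [← hL]
  ring

/-- **An arbitrary set times a set in which few pairs have many common divisors.** -/
theorem arbFew (ε : ℝ) (hε : 0 < ε) (hε1 : ε ≤ 1) :
    ∃ η θ c : ℝ, 0 < η ∧ 0 < θ ∧ 0 < c ∧ ∀ S : Finset ℤ, S.Nonempty → (0 : ℤ) ∉ S →
      (((S ×ˢ S).filter fun s => (S.card : ℝ) ^ θ < (tau s : ℝ)).card : ℝ) ≤
        η * (S.card : ℝ) ^ 2 →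
      ∀ A : Finset ℂ, A.Nonempty → (0 : ℂ) ∉ A →
      c * ((A.card : ℝ) * S.card) ^ (1 - ε) ≤ (AB A S).card := by
  have hk1 : 1 ≤ ⌈1 / ε⌉₊ := Nat.one_le_ceil_iff.2 (by positivity)
  obtain ⟨η, θ, c, hη, hθ, hc, h⟩ := kfoldFew ⌈1 / ε⌉₊ hk1 ε hε hε1
  refine ⟨η, θ, (c / 2) ^ (1 / (⌈1 / ε⌉₊ : ℝ)), hη, hθ, by positivity,
    fun S hS h0 hbad A hA hA0 => ?_⟩
  refine arb hε hε1 hc ⌈1 / ε⌉₊ (Nat.le_ceil _) S ?_ (h S hS h0 hbad) A hA hA0
  obtain ⟨b, hb⟩ := hS
  exact ⟨b, hb, fun hb0 => h0 (hb0 ▸ hb)⟩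

end Pool.Agent.R483.GC
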