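import Mathlib

/-!
# Sets with few products and with greatest common divisors `|S| ^ (C log log |S|)`
-/

set_option autoImplicit false

namespace Pool.Agent.R483.GC

open Finset Nat
open scoped Classical

lemma log_le_quarter {x : ℝ} (hx : 16 ≤ x) : Real.log x ≤ x / 4 := by
  set y := Real.sqrt (Real.sqrt x) with hy
  have hx0 : 0 < x := by linarith
  have hy0 : 0 < y := Real.sqrt_pos.2 (Real.sqrt_pos.2 hx0)
  have h2 : y ^ 2 = Real.sqrt x := Real.sq_sqrt (Real.sqrt_nonneg _)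
  have h4 : y ^ 4 = x := by
    have : y ^ 4 = (y ^ 2) ^ 2 := by ring
    rw [this, h2, Real.sq_sqrt hx0.le]
  have hlog : Real.log x = 4 * Real.log y := by
    rw [← h4, Real.log_pow]
    push_cast
    ring
  have hy2 : 2 ≤ y := by
    by_contra hcon
    push Not at hcon
    have : y ^ 4 < 2 ^ 4 := pow_lt_pow_left₀ hcon hy0.le (by norm_num)
    rw [h4] at this
    linarith
  have h5 := Real.log_le_sub_one_of_pos hy0
  rw [hlog]
  have h6 : 4 * (y - 1) ≤ y ^ 4 / 4 := by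
    have h7 : 0 ≤ (y - 2) ^ 2 * (y ^ 2 + 4 * y + 12) := by positivity
    have h8 : (y - 2) ^ 2 * (y ^ 2 + 4 * y + 12) = y ^ 4 - 32 * y + 48 := by ring
    nlinarith
  rw [h4] at h6
  linarith

lemma many_primes (s : ℕ) (hs : 16 ≤ s) : s ≤ (Nat.primesLE (s ^ 2)).card := by
  by_contra hcon
  push Not at hcon
  have h1 := Chebyshev.psi_ge (s ^ 2)
  have h2 := Chebyshev.psi_le_primeCounting_mul_log (s ^ 2)
  have hsr : (16 : ℝ) ≤ s := by exact_mod_cast hs
  have hpc : Nat.primeCounting (s ^ 2) = (Nat.primesLE (s ^ 2)).card := by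
    simp [Nat.primesLE_card_eq_primeCounting]
  have h3 : (Nat.primeCounting (s ^ 2) : ℝ) ≤ s := by
    rw [hpc]
    exact_mod_cast hcon.le
  have h4 : Real.log ((s ^ 2 : ℕ) : ℝ) = 2 * Real.log s := by
    push_cast
    rw [Real.log_pow]
    push_cast
    ring
  have h5 := log_le_quarter hsr
  have h6 : 0 ≤ Real.log (s : ℝ) := Real.log_nonneg (by linarith)
  have h7 : (Nat.primeCounting (s ^ 2) : ℝ) * Real.log ((s ^ 2 : ℕ) : ℝ) ≤ s * (s / 2) := by
    rw [h4]
    refine mul_le_mul h3 (by linarith) (by positivity) (by positivity)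
  have h8 : Real.log (((s ^ 2 : ℕ) : ℝ) + 1) ≤ 1 + s / 2 := by
    have h9 : Real.log (((s ^ 2 : ℕ) : ℝ) + 1) ≤ Real.log (2 * s ^ 2) := by
      refine Real.log_le_log (by positivity) ?_
      push_cast
      nlinarith
    rw [Real.log_mul (by norm_num) (by positivity), Real.log_pow] at h9
    push_cast at h9 ⊢
    linarith [Real.log_two_lt_d9]
  have h10 := Real.log_two_gt_d9
  push_cast at h1 h2 h7 h8
  nlinarith

/-- the products of the subsets of a set of primes -/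
noncomputable def sub (P : Finset ℕ) : Finset ℤ := P.powerset.image fun I => ((∏ p ∈ I, p : ℕ) : ℤ)

lemma card_sub (P : Finset ℕ) (hP : ∀ p ∈ P, p.Prime) : (sub P).card = 2 ^ P.card := by
  unfold sub
  rw [Finset.card_image_of_injOn, card_powerset]
  intro I hI J hJ hIJ
  rw [mem_coe, mem_powerset] at hI hJ
  have h1 : ∏ p ∈ I, p = ∏ p ∈ J, p := Nat.cast_injective (R := ℤ) hIJ
  rw [← Nat.primeFactors_prod fun p hp => hP p (hI hp),
    ← Nat.primeFactors_prod fun p hp => hP p (hJ hp), h1]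

lemma card_sub_sub (P : Finset ℕ) :
    (((sub P) ×ˢ (sub P)).image fun s => s.1 * s.2).card ≤ 3 ^ P.card := by
  have h1 : (((sub P) ×ˢ (sub P)).image fun s => s.1 * s.2) ⊆
      (Fintype.piFinset fun _ : P => range 3).image fun e => ∏ p : P, ((p : ℕ) : ℤ) ^ (e p) := by
    intro m hm
    obtain ⟨⟨a, b⟩, hab, rfl⟩ := mem_image.1 hm
    rw [mem_product] at hab
    obtain ⟨I, hI, ha⟩ := mem_image.1 hab.1
    obtain ⟨J, hJ, hb⟩ := mem_image.1 hab.2
    rw [mem_powerset] at hI hJ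
    refine mem_image.2 ⟨fun p => (if (p : ℕ) ∈ I then 1 else 0) + (if (p : ℕ) ∈ J then 1 else 0),
      Fintype.mem_piFinset.2 fun p => ?_, ?_⟩
    · rw [mem_range]
      split_ifs <;> norm_num
    · have key : ∀ K ⊆ P, ((∏ p ∈ K, p : ℕ) : ℤ) =
          ∏ p : P, ((p : ℕ) : ℤ) ^ (if (p : ℕ) ∈ K then 1 else 0) := by
        intro K hK
        rw [Finset.prod_coe_sort P fun p : ℕ => ((p : ℕ) : ℤ) ^ (if p ∈ K then 1 else 0)]
        push_cast
        rw [← prod_subset hK fun p _ hp => by rw [if_neg hp, pow_zero]]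
        exact prod_congr rfl fun p hp => by rw [if_pos hp, pow_one]
      show ∏ p : P, ((p : ℕ) : ℤ) ^ ((if (p : ℕ) ∈ I then 1 else 0) +
        (if (p : ℕ) ∈ J then 1 else 0)) = a * b
      simp only [pow_add]
      rw [prod_mul_distrib, ← key I hI, ← key J hJ]
      have ha' : ((∏ p ∈ I, p : ℕ) : ℤ) = a := ha
      have hb' : ((∏ p ∈ J, p : ℕ) : ℤ) = b := hb
      rw [ha', hb']
  refine (card_le_card h1).trans (card_image_le.trans (le_of_eq ?_))
  rw [Fintype.card_piFinset]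
  simp

/-- **The example.** -/
theorem sharp (N : ℕ) : ∃ S : Finset ℤ, N ≤ S.card ∧ (0 : ℤ) ∉ S ∧
    (((S ×ˢ S).image fun s => s.1 * s.2).card : ℝ) ≤ (S.card : ℝ) ^ (8 / 5 : ℝ) ∧
    ∀ s ∈ S, ∀ t ∈ S, (Int.gcd s t : ℝ) ≤ (S.card : ℝ) ^ (6 * Real.log (Real.log S.card)) := by
  set s := max N 16 with hs
  have hs16 : 16 ≤ s := le_max_right _ _
  have hsr : (16 : ℝ) ≤ s := by exact_mod_cast hs16
  obtain ⟨P, hP, hPc⟩ := exists_subset_card_eq (many_primes s hs16)
  have hPp : ∀ p ∈ P, p.Prime ∧ p ≤ s ^ 2 := by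
    intro p hp
    have := hP hp
    rw [Nat.mem_primesLE] at this
    exact ⟨this.2, this.1⟩
  have hc := card_sub P fun p hp => (hPp p hp).1
  rw [hPc] at hc
  refine ⟨sub P, ?_, ?_, ?_, ?_⟩
  · rw [hc]
    exact (le_max_left N 16).trans (Nat.lt_two_pow_self).le
  · intro h0
    obtain ⟨I, hI, h1⟩ := mem_image.1 h0
    have h2 : ∏ p ∈ I, p = 0 := by exact_mod_cast h1
    rw [prod_eq_zero_iff] at h2
    obtain ⟨p, hp, rfl⟩ := h2
    exact Nat.not_prime_zero (hPp 0 (mem_powerset.1 hI hp)).1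
  · have h1 := card_sub_sub P
    rw [hPc] at h1
    have h2 : (((sub P ×ˢ sub P).image fun s => s.1 * s.2).card : ℝ) ≤ 3 ^ s := by
      exact_mod_cast h1
    refine h2.trans ?_
    rw [hc]
    have h3 : (3 : ℝ) ≤ 2 ^ (8 / 5 : ℝ) := by
      have h4 : ((3 : ℝ) ^ (5 : ℝ)) ^ (1 / 5 : ℝ) ≤ ((2 : ℝ) ^ (8 : ℝ)) ^ (1 / 5 : ℝ) := by
        refine Real.rpow_le_rpow (by positivity) ?_ (by norm_num)
        norm_num
      rw [← Real.rpow_mul (by norm_num), ← Real.rpow_mul (by norm_num)] at h4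
      norm_num at h4
      exact h4
    calc (3 : ℝ) ^ s ≤ (2 ^ (8 / 5 : ℝ)) ^ s := pow_le_pow_left₀ (by norm_num) h3 s
      _ = (((2 ^ s : ℕ) : ℝ)) ^ (8 / 5 : ℝ) := by
          push_cast
          rw [← Real.rpow_natCast, ← Real.rpow_natCast, ← Real.rpow_mul (by norm_num),
            ← Real.rpow_mul (by norm_num), mul_comm]
  · intro a ha b hb
    obtain ⟨I, hI, rfl⟩ := mem_image.1 ha
    rw [mem_powerset] at hI
    have h1 : Int.gcd ((∏ p ∈ I, p : ℕ) : ℤ) b ≤ ∏ p ∈ I, p := by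
      refine Nat.le_of_dvd ?_ ?_
      · exact prod_pos fun p hp => (hPp p (hI hp)).1.pos
      · have := Int.gcd_dvd_left ((∏ p ∈ I, p : ℕ) : ℤ) b
        exact_mod_cast this
    have h2 : ∏ p ∈ I, p ≤ (s ^ 2) ^ s := by
      calc ∏ p ∈ I, p ≤ ∏ p ∈ P, p :=
            prod_le_prod_of_subset_of_one_le' hI fun p hp _ => (hPp p hp).1.one_le
        _ ≤ ∏ _p ∈ P, s ^ 2 := prod_le_prod' fun p hp => (hPp p hp).2
        _ = (s ^ 2) ^ s := by rw [prod_const, hPc]
    have h3 : (Int.gcd ((∏ p ∈ I, p : ℕ) : ℤ) b : ℝ) ≤ ((s : ℝ) ^ 2) ^ s := by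
      exact_mod_cast h1.trans h2
    refine h3.trans ?_
    rw [hc]
    have hlogS : Real.log ((2 ^ s : ℕ) : ℝ) = s * Real.log 2 := by
      push_cast
      rw [Real.log_pow]
    rw [hlogS]
    have hs0 : (0 : ℝ) < s := by linarith
    have hlog2 := Real.log_two_gt_d9
    have h5 : Real.log s / 2 ≤ Real.log (s * Real.log 2) := by
      rw [← Real.log_sqrt hs0.le]
      refine Real.log_le_log (Real.sqrt_pos.2 hs0) ?_
      have h6 : 4 ≤ Real.sqrt s := by
        rw [show (4 : ℝ) = Real.sqrt 16 by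
          rw [show (16 : ℝ) = 4 ^ 2 by norm_num, Real.sqrt_sq (by norm_num)]]
        exact Real.sqrt_le_sqrt hsr
      have h7 := Real.sq_sqrt hs0.le
      nlinarith
    have h6 : 0 ≤ Real.log s := Real.log_nonneg (by linarith)
    rw [Real.rpow_def_of_pos (by positivity), hlogS, ← pow_mul, ← Real.exp_log hs0,
      ← Real.exp_nat_mul, Real.exp_log hs0]
    refine Real.exp_le_exp.2 ?_
    push_cast
    have h7 : 6 * Real.log 2 * (Real.log s / 2) ≤ 6 * Real.log 2 * Real.log (s * Real.log 2) :=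
      mul_le_mul_of_nonneg_left h5 (by positivity)
    have h8 : 2 * Real.log s ≤ 6 * Real.log 2 * (Real.log s / 2) := by nlinarith
    have h9 := mul_le_mul_of_nonneg_left (h8.trans h7) hs0.le
    linarith

end Pool.Agent.R483.GC
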