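import Mathlib
import Pool.Agent.R483.GC.Ints

/-!
# Few products and common divisors
-/

set_option autoImplicit false

namespace Pool.Agent.R483.GC

open Finset Pool.Agent.Y359.PE
open scoped Classical

/-- many pairs with few common divisors have many products -/
theorem manyPairs (ν : ℝ) (hν : 0 < ν) (hν1 : ν ≤ 1) : ∃ θ : ℝ, 0 < θ ∧ θ ≤ ν ∧
    ∀ X Y : Finset ℤ, (0 : ℤ) ∉ X → (0 : ℤ) ∉ Y → ∀ E ⊆ X ×ˢ Y, E.Nonempty →
      (∀ s ∈ E, (tau s : ℝ) ≤ ((X.card : ℝ) * Y.card) ^ θ) →
      4 * ((X.card : ℝ) * Y.card) ^ (1 - θ) ≤ E.card →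
      ((X.card : ℝ) * Y.card) ^ (1 - ν / 2) ≤ (E.image fun s => s.1 * s.2).card := by
  obtain ⟨C, hC1, hmain⟩ := mainLog (ν / 4) (by positivity) (by linarith)
  refine ⟨ν / (4 * (1 + 2 * C)), by positivity, ?_, fun X Y hX hY E hEXY hE hτ hcard => ?_⟩
  · rw [div_le_iff₀ (by positivity)]
    nlinarith
  set θ := ν / (4 * (1 + 2 * C)) with hθ
  have hθ0 : 0 < θ := by positivity
  have hN : (0 : ℝ) < E.card := by exact_mod_cast card_pos.2 hE
  obtain ⟨s0, hs0⟩ := hE
  have hs0' := mem_product.1 (hEXY hs0)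
  have hXc : (1 : ℝ) ≤ X.card := by exact_mod_cast card_pos.2 ⟨s0.1, hs0'.1⟩
  have hYc : (1 : ℝ) ≤ Y.card := by exact_mod_cast card_pos.2 ⟨s0.2, hs0'.2⟩
  set n : ℝ := (X.card : ℝ) * Y.card with hn
  have hn1 : 1 ≤ n := by nlinarith
  have hn0 : 0 < n := by linarith
  have h1 := hmain X Y hX hY E hEXY ⟨s0, hs0⟩
  have hlogn : Real.log X.card + Real.log Y.card = Real.log n := by
    rw [hn, Real.log_mul (by linarith) (by linarith)]
  rw [hlogn] at h1
  have hL0 : 0 ≤ Real.log n := Real.log_nonneg hn1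
  have havg : (∑ s ∈ E, Real.log (tau s)) / E.card ≤ θ * Real.log n := by
    rw [div_le_iff₀ hN]
    calc ∑ s ∈ E, Real.log (tau s) ≤ ∑ _s ∈ E, θ * Real.log n := by
          refine sum_le_sum fun s hs => ?_
          have hs1 : s.1 ≠ 0 := fun h => hX (h ▸ (mem_product.1 (hEXY hs)).1)
          have h2 := Real.log_le_log (show (0 : ℝ) < tau s by exact_mod_cast tau_pos hs1) (hτ s hs)
          rwa [Real.log_rpow hn0] at h2
      _ = θ * Real.log n * E.card := by
          rw [sum_const, nsmul_eq_mul]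
          ring
  have hlogE : Real.log 4 + (1 - θ) * Real.log n ≤ Real.log E.card := by
    have h2 := Real.log_le_log (by positivity) hcard
    rwa [Real.log_mul (by norm_num) (by positivity), Real.log_rpow hn0] at h2
  have hM : (0 : ℝ) < (E.image fun s => s.1 * s.2).card := by
    exact_mod_cast card_pos.2 (Finset.Nonempty.image ⟨s0, hs0⟩ _)
  have e1 : θ * (1 + 2 * C) = ν / 4 := by
    rw [hθ]
    field_simp
  have h3 : C * ((∑ s ∈ E, Real.log (tau s)) / E.card) ≤ C * (θ * Real.log n) :=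
    mul_le_mul_of_nonneg_left havg (by linarith)
  have h4 : (1 + C) * (Real.log 4 + (1 - θ) * Real.log n) ≤ (1 + C) * Real.log E.card :=
    mul_le_mul_of_nonneg_left hlogE (by linarith)
  have h5 : (1 - ν / 2) * Real.log n ≤ Real.log ((E.image fun s => s.1 * s.2).card) := by
    have e2 : θ * (1 + 2 * C) * Real.log n = ν / 4 * Real.log n := by rw [e1]
    nlinarith
  rw [← Real.log_rpow hn0] at h5
  exact (Real.log_le_log_iff (by positivity) hM).1 h5

/-- **Popular products come from pairs with many common divisors.** -/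
theorem popular (ν : ℝ) (hν : 0 < ν) : ∃ θ : ℝ, 0 < θ ∧
    ∀ X Y : Finset ℤ, X.Nonempty → Y.Nonempty → (0 : ℤ) ∉ X → (0 : ℤ) ∉ Y →
      (((X ×ˢ Y).filter fun s => (tau s : ℝ) < ((X.card : ℝ) * Y.card) ^ θ ∧
        ((X.card : ℝ) * Y.card) ^ ν ≤
          ((X ×ˢ Y).filter fun t => t.1 * t.2 = s.1 * s.2).card).card : ℝ) ≤
        4 * ((X.card : ℝ) * Y.card) ^ (1 - θ) := by
  obtain ⟨θ, hθ, hθν, h⟩ := manyPairs (min ν 1) (by positivity) (min_le_right _ _)
  refine ⟨θ, hθ, fun X Y hXne hYne hX hY => ?_⟩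
  have hXc : (1 : ℝ) ≤ X.card := by exact_mod_cast card_pos.2 hXne
  have hYc : (1 : ℝ) ≤ Y.card := by exact_mod_cast card_pos.2 hYne
  have hn1 : 1 ≤ (X.card : ℝ) * Y.card := by nlinarith
  set n : ℝ := (X.card : ℝ) * Y.card with hn
  set E := (X ×ˢ Y).filter fun s => (tau s : ℝ) < n ^ θ ∧
        n ^ ν ≤ ((X ×ˢ Y).filter fun t => t.1 * t.2 = s.1 * s.2).card with hE
  by_contra hcon
  push Not at hcon
  have hEne : E.Nonempty := by
    rw [nonempty_iff_ne_empty]
    intro h0
    rw [h0, card_empty] at hcon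
    have : (0 : ℝ) ≤ 4 * n ^ (1 - θ) := by positivity
    push_cast at hcon
    linarith
  have hEsub : E ⊆ X ×ˢ Y := filter_subset _ _
  have h1 := h X Y hX hY E hEsub hEne (fun s hs => (mem_filter.1 hs).2.1.le) hcon.le
  -- the number of products
  have h2 : ((E.image fun s => s.1 * s.2).card : ℝ) * n ^ ν ≤ n := by
    calc ((E.image fun s => s.1 * s.2).card : ℝ) * n ^ ν
        = ∑ _m ∈ E.image fun s => s.1 * s.2, n ^ ν := by rw [sum_const, nsmul_eq_mul]
      _ ≤ ∑ m ∈ E.image fun s => s.1 * s.2,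
          (((X ×ˢ Y).filter fun t => t.1 * t.2 = m).card : ℝ) := by
            refine sum_le_sum fun m hm => ?_
            obtain ⟨s, hs, rfl⟩ := mem_image.1 hm
            exact (mem_filter.1 hs).2.2
      _ ≤ ∑ m ∈ (X ×ˢ Y).image fun s => s.1 * s.2,
          (((X ×ˢ Y).filter fun t => t.1 * t.2 = m).card : ℝ) :=
            sum_le_sum_of_subset_of_nonneg (image_subset_image hEsub)
              fun _ _ _ => Nat.cast_nonneg _
      _ = ((X ×ˢ Y).card : ℝ) := by
            rw [card_eq_sum_card_image (fun s : ℤ × ℤ => s.1 * s.2) (X ×ˢ Y)]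
            push_cast
            rfl
      _ = n := by
            rw [card_product, hn]
            push_cast
            rfl
  have hn0 : 0 < n := by linarith
  have h3 : n ^ (1 - min ν 1 / 2) * n ^ ν ≤ n ^ (1 : ℝ) := by
    rw [Real.rpow_one]
    exact (mul_le_mul_of_nonneg_right h1 (by positivity)).trans h2
  rw [← Real.rpow_add hn0] at h3
  rcases hn1.eq_or_lt with hn' | hn'
  · -- only one pair
    have h4 : (E.card : ℝ) ≤ n := by
      have : (E.card : ℝ) ≤ ((X ×ˢ Y).card : ℝ) := by exact_mod_cast card_le_card hEsub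
      rw [card_product] at this
      push_cast at this
      exact this
    rw [← hn'] at hcon h4
    rw [Real.one_rpow] at hcon
    linarith
  · have h4 := (Real.rpow_le_rpow_left_iff hn').1 h3
    have h5 : min ν 1 ≤ ν := min_le_left _ _
    have h6 : 0 < min ν 1 := by positivity
    linarith

/-- **Few products: almost all pairs have many common divisors.** -/
theorem fewProducts (δ : ℝ) (hδ : 0 < δ) : ∃ θ : ℝ, 0 < θ ∧
    ∀ X Y : Finset ℤ, X.Nonempty → Y.Nonempty → (0 : ℤ) ∉ X → (0 : ℤ) ∉ Y →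
      (((X ×ˢ Y).image fun s => s.1 * s.2).card : ℝ) ≤ ((X.card : ℝ) * Y.card) ^ (1 - δ) →
      (((X ×ˢ Y).filter fun s => (tau s : ℝ) < ((X.card : ℝ) * Y.card) ^ θ).card : ℝ) ≤
        4 * ((X.card : ℝ) * Y.card) ^ (1 - θ) := by
  obtain ⟨θ, hθ, hθν, h⟩ := manyPairs (min δ 1) (by positivity) (min_le_right _ _)
  refine ⟨θ, hθ, fun X Y hXne hYne hX hY hfew => ?_⟩
  have hXc : (1 : ℝ) ≤ X.card := by exact_mod_cast card_pos.2 hXne
  have hYc : (1 : ℝ) ≤ Y.card := by exact_mod_cast card_pos.2 hYne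
  have hn1 : 1 ≤ (X.card : ℝ) * Y.card := by nlinarith
  set n : ℝ := (X.card : ℝ) * Y.card with hn
  set E := (X ×ˢ Y).filter fun s => (tau s : ℝ) < n ^ θ with hE
  by_contra hcon
  push Not at hcon
  have hEne : E.Nonempty := by
    rw [nonempty_iff_ne_empty]
    intro h0
    rw [h0, card_empty] at hcon
    have : (0 : ℝ) ≤ 4 * n ^ (1 - θ) := by positivity
    push_cast at hcon
    linarith
  have hEsub : E ⊆ X ×ˢ Y := filter_subset _ _
  have h1 := h X Y hX hY E hEsub hEne (fun s hs => (mem_filter.1 hs).2.le) hcon.le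
  have h2 : ((E.image fun s => s.1 * s.2).card : ℝ) ≤
      ((X ×ˢ Y).image fun s => s.1 * s.2).card := by
    exact_mod_cast card_le_card (image_subset_image hEsub)
  have hn0 : 0 < n := by linarith
  have h3 : n ^ (1 - min δ 1 / 2) ≤ n ^ (1 - δ) := h1.trans (h2.trans hfew)
  rcases hn1.eq_or_lt with hn' | hn'
  · have h4 : (E.card : ℝ) ≤ n := by
      have : (E.card : ℝ) ≤ ((X ×ˢ Y).card : ℝ) := by exact_mod_cast card_le_card hEsub
      rw [card_product] at this
      push_cast at this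
      exact this
    rw [← hn'] at hcon h4
    rw [Real.one_rpow] at hcon
    linarith
  · have h4 := (Real.rpow_le_rpow_left_iff hn').1 h3
    have h5 : min δ 1 ≤ δ := min_le_left _ _
    have h6 : 0 < min δ 1 := by positivity
    linarith

end Pool.Agent.R483.GC
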