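import Mathlib
import Pool.Agent.R483.GC.Ints
import Pool.Agent.Y359.PE.Dich

/-!
# Sums or products: common divisors outside an exceptional set of primes
-/

set_option autoImplicit false

namespace Pool.Agent.R483.GC

open Finset Pool.Agent.Y359.PE Filter
open scoped Classical

/-- **The main inequality for the valuations at `T`.** -/
theorem mainLogT (ε : ℝ) (hε : 0 < ε) (hε1 : ε ≤ 1) : ∃ C : ℝ, 1 ≤ C ∧
    ∀ X Y : Finset ℤ, (0 : ℤ) ∉ X → (0 : ℤ) ∉ Y → ∀ E ⊆ X ×ˢ Y, E.Nonempty →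
      ∀ (T : Finset ℕ) (F : ℝ),
      (∀ s ∈ E, (fc E (fun u => (mk T fA u, mk T fB u)) s : ℝ) ≤ F) →
      Real.log E.card - Real.log F - Real.log ((E.image fun s => s.1 * s.2).card) ≤
      ε * (Real.log X.card + Real.log Y.card) +
      C * (Real.log X.card + Real.log Y.card - (Real.log E.card - Real.log F)) +
      C * ((∑ s ∈ E, ∑ p ∈ T, Real.log (1 + min (fA s p) (fB s p) : ℕ)) / E.card) := by
  obtain ⟨C, hC1, hcell⟩ := cell ε hε hε1
  refine ⟨C, hC1, fun X Y hX hY E hEXY hE T F hF => ?_⟩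
  have hC : 0 ≤ C := by linarith
  have hN : (0 : ℝ) < E.card := by exact_mod_cast card_pos.2 hE
  have hE0 : ∀ s ∈ E, s.1 ≠ 0 ∧ s.2 ≠ 0 := by
    intro s hs
    have h1 := mem_product.1 (hEXY hs)
    exact ⟨fun h => hX (h ▸ h1.1), fun h => hY (h ▸ h1.2)⟩
  have hmain := vecDep hε.le hC (fun G hG a b => hcell (ℤ × ℤ) G hG a b) E hE fA fB T
  have hj := h_ge_short E E hE (fun u => (mk T fA u, mk T fB u)) (Subset.refl _) (F := F) hF
  rw [div_self hN.ne', one_mul] at hj
  have hXA : h E (mk T fA) ≤ Real.log X.card := by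
    refine (h_le_log hE _).trans (Real.log_le_log ?_ ?_)
    · exact_mod_cast card_pos.2 (hE.image _)
    · have h1 : E.image (mk T fA) ⊆ X.image fun x => mk T (fun s p => fa s p) x := by
        intro v hv
        obtain ⟨s, hs, rfl⟩ := mem_image.1 hv
        exact mem_image.2 ⟨s.1, (mem_product.1 (hEXY hs)).1, rfl⟩
      exact_mod_cast (card_le_card h1).trans card_image_le
  have hYB : h E (mk T fB) ≤ Real.log Y.card := by
    refine (h_le_log hE _).trans (Real.log_le_log ?_ ?_)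
    · exact_mod_cast card_pos.2 (hE.image _)
    · have h1 : E.image (mk T fB) ⊆ Y.image fun x => mk T (fun s p => fa s p) x := by
        intro v hv
        obtain ⟨s, hs, rfl⟩ := mem_image.1 hv
        exact mem_image.2 ⟨s.2, (mem_product.1 (hEXY hs)).2, rfl⟩
      exact_mod_cast (card_le_card h1).trans card_image_le
  have hP : h E (mk T fun u p => fA u p + fB u p) ≤
      Real.log ((E.image fun s => s.1 * s.2).card) := by
    refine (h_le_log hE _).trans (Real.log_le_log ?_ ?_)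
    · exact_mod_cast card_pos.2 (hE.image _)
    · have h1 : E.image (mk T fun u p => fA u p + fB u p) ⊆
          (E.image fun s => s.1 * s.2).image fun x => mk T (fun s p => fa s p) x := by
        intro v hv
        obtain ⟨s, hs, rfl⟩ := mem_image.1 hv
        refine mem_image.2 ⟨s.1 * s.2, mem_image.2 ⟨s, hs, rfl⟩, ?_⟩
        funext p
        unfold Pool.Agent.Y359.PE.mk
        split_ifs with hp
        · exact fa_mul (hE0 s hs).1 (hE0 s hs).2 p
        · rfl
      exact_mod_cast (card_le_card h1).trans card_image_le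
  have hmu : ∑ p ∈ T, mu E (fun u => fA u p) (fun u => fB u p) =
      (∑ s ∈ E, ∑ p ∈ T, Real.log (1 + min (fA s p) (fB s p) : ℕ)) / E.card := by
    unfold mu
    rw [← sum_div, sum_comm]
  rw [hmu] at hmain
  have k1 : ε * (h E (mk T fA) + h E (mk T fB)) ≤ ε * (Real.log X.card + Real.log Y.card) :=
    mul_le_mul_of_nonneg_left (by linarith) hε.le
  have k2 : C * (h E (mk T fA) + h E (mk T fB) - h E (fun u => (mk T fA u, mk T fB u))) ≤
      C * (Real.log X.card + Real.log Y.card - (Real.log E.card - Real.log F)) :=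
    mul_le_mul_of_nonneg_left (by linarith) hC
  linarith

/-- the number of the common divisors without prime factors in `P` -/
def tauP (P : Finset ℕ) (s : ℤ × ℤ) : ℕ :=
  ((Int.gcd s.1 s.2).divisors.filter fun d => ∀ p ∈ P, ¬ p ∣ d).card

lemma log_tauP {s : ℤ × ℤ} (h1 : s.1 ≠ 0) (h2 : s.2 ≠ 0) (P T : Finset ℕ)
    (hP : ∀ p ∈ P, p.Prime) (hT : ∀ p ∈ T, p.Prime) (hTP : ∀ p ∈ T, p ∉ P) :
    ∑ p ∈ T, Real.log (1 + min (fA s p) (fB s p) : ℕ) ≤ Real.log (tauP P s) := by
  set g := Int.gcd s.1 s.2 with hgd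
  have hg : g ≠ 0 := fun h0 => h1 (Int.gcd_eq_zero_iff.1 h0).1
  have hfac : ∀ p, g.factorization p = min (fA s p) (fB s p) := by
    intro p
    rw [hgd, Int.gcd_eq_natAbs, Nat.factorization_gcd (Int.natAbs_ne_zero.2 h1)
      (Int.natAbs_ne_zero.2 h2)]
    rfl
  set g' := ∏ p ∈ T, p ^ g.factorization p with hg'
  have hf' : ∀ q, g'.factorization q = if q ∈ T then g.factorization q else 0 :=
    fun q => fact_prod T hT _ q
  have hg'0 : g' ≠ 0 := prod_ne_zero_iff.2 fun p hp => pow_ne_zero _ (hT p hp).ne_zero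
  have hdvd : g' ∣ g := by
    rw [← Nat.factorization_le_iff_dvd hg'0 hg]
    intro q
    rw [hf']
    split_ifs
    · exact le_rfl
    · exact Nat.zero_le _
  have hsub : g'.divisors ⊆ g.divisors.filter fun d => ∀ p ∈ P, ¬ p ∣ d := by
    intro d hd
    rw [Nat.mem_divisors] at hd
    rw [mem_filter, Nat.mem_divisors]
    refine ⟨⟨hd.1.trans hdvd, hg⟩, fun p hp hpd => ?_⟩
    have h3 : p ∣ g' := hpd.trans hd.1
    have h4 : 0 < g'.factorization p := (hP p hp).factorization_pos_of_dvd hg'0 h3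
    rw [hf', if_neg (fun hpT => hTP p hpT hp)] at h4
    exact lt_irrefl _ h4
  have hcard : g'.divisors.card = ∏ p ∈ T, (1 + min (fA s p) (fB s p)) := by
    rw [Nat.card_divisors hg'0]
    have hs : g'.primeFactors ⊆ T := by
      intro p hp
      by_contra hcon
      rw [← Nat.support_factorization, Finsupp.mem_support_iff, hf', if_neg hcon] at hp
      exact hp rfl
    refine (prod_subset hs ?_).trans (prod_congr rfl fun p hp => ?_)
    · intro p _ hp
      have h3 : g'.factorization p = 0 := by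
        rw [← Finsupp.notMem_support_iff, Nat.support_factorization]
        exact hp
      rw [h3, zero_add]
    · rw [hf', if_pos hp, hfac, add_comm]
  rw [← Real.log_prod (fun p _ => by positivity)]
  refine Real.log_le_log (prod_pos fun p _ => by positivity) ?_
  have h3 := card_le_card hsub
  rw [hcard] at h3
  unfold tauP
  exact_mod_cast h3

/-- the companions of `x` -/
noncomputable def comp (A : Finset ℤ) (P : Finset ℕ) (x : ℤ) : Finset ℤ :=
  A.filter fun y => (0 < x ↔ 0 < y) ∧ ∀ p, p ∉ P → fa x p = fa y p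

lemma comp_congr {A : Finset ℤ} {P : Finset ℕ} {x y : ℤ} (h : y ∈ comp A P x) :
    comp A P y = comp A P x := by
  have h1 := (mem_filter.1 h).2
  unfold comp
  refine filter_congr fun z _ => ?_
  constructor
  · rintro ⟨h2, h3⟩
    exact ⟨h1.1.trans h2, fun p hp => (h1.2 p hp).trans (h3 p hp)⟩
  · rintro ⟨h2, h3⟩
    exact ⟨h1.1.symm.trans h2, fun p hp => (h1.2 p hp).symm.trans (h3 p hp)⟩

lemma mem_comp_self {A : Finset ℤ} {P : Finset ℕ} {x : ℤ} (hx : x ∈ A) : x ∈ comp A P x :=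
  mem_filter.2 ⟨hx, Iff.rfl, fun _ _ => rfl⟩

lemma card_same (A A2 : Finset ℤ) (hA2 : A2 ⊆ A) (P : Finset ℕ) {m : ℝ}
    (hm : ∀ x ∈ A2, ((comp A P x).card : ℝ) ≤ m) {x : ℤ} (hx : x ∈ A2) :
    ((A2.filter fun y => ∀ p, p ∉ P → fa x p = fa y p).card : ℝ) ≤ 2 * m := by
  have hm0 : 0 ≤ m := le_trans (Nat.cast_nonneg _) (hm x hx)
  set D := A2.filter fun y => ∀ p, p ∉ P → fa x p = fa y p with hD
  have h1 : ∀ (Q : ℤ → Prop) [DecidablePred Q], (∀ y ∈ D, ∀ z ∈ D, Q y → Q z → (0 < y ↔ 0 < z)) →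
      ((D.filter Q).card : ℝ) ≤ m := by
    intro Q _ hQ
    rcases (D.filter Q).eq_empty_or_nonempty with h0 | ⟨y, hy⟩
    · rw [h0]
      simpa using hm0
    · have hy' := mem_filter.1 hy
      have hyD := mem_filter.1 hy'.1
      refine le_trans ?_ (hm y hyD.1)
      have : D.filter Q ⊆ comp A P y := by
        intro z hz
        have hz' := mem_filter.1 hz
        have hzD := mem_filter.1 hz'.1
        exact mem_filter.2 ⟨hA2 hzD.1, hQ y hy'.1 z hz'.1 hy'.2 hz'.2,
          fun p hp => (hyD.2 p hp).symm.trans (hzD.2 p hp)⟩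
      exact_mod_cast card_le_card this
  have h2 := h1 (fun y => 0 < y) fun y _ z _ hy hz => iff_of_true hy hz
  have h3 := h1 (fun y => ¬ 0 < y) fun y _ z _ hy hz => iff_of_false hy hz
  have h4 : (D.filter fun y => 0 < y).card + (D.filter fun y => ¬ 0 < y).card = D.card :=
    card_filter_add_card_filter_not _
  have h5 : (D.card : ℝ) = (D.filter fun y => 0 < y).card + (D.filter fun y => ¬ 0 < y).card := by
    exact_mod_cast h4.symm
  linarith

lemma fc_le_comp (A A2 : Finset ℤ) (hA2 : A2 ⊆ A) (P : Finset ℕ) {m : ℝ}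
    (hm : ∀ x ∈ A2, ((comp A P x).card : ℝ) ≤ m) (E : Finset (ℤ × ℤ)) (hE : E ⊆ A2 ×ˢ A2)
    {s : ℤ × ℤ} (hs : s ∈ E) :
    (fc E (fun u => (mk (pr A \ P) fA u, mk (pr A \ P) fB u)) s : ℝ) ≤ (2 * m) * (2 * m) := by
  have hs' := mem_product.1 (hE hs)
  have h1 : cl E (fun u => (mk (pr A \ P) fA u, mk (pr A \ P) fB u)) s ⊆
      (A2.filter fun y => ∀ p, p ∉ P → fa s.1 p = fa y p) ×ˢ
        (A2.filter fun y => ∀ p, p ∉ P → fa s.2 p = fa y p) := by
    intro u hu
    rw [mem_cl, Prod.mk.injEq, mk_eq_iff, mk_eq_iff] at hu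
    obtain ⟨huE, hA, hB⟩ := hu
    have hu' := mem_product.1 (hE huE)
    rw [mem_product, mem_filter, mem_filter]
    refine ⟨⟨hu'.1, fun p hp => ?_⟩, ⟨hu'.2, fun p hp => ?_⟩⟩
    · by_cases hpA : p ∈ pr A
      · exact (hA p (mem_sdiff.2 ⟨hpA, hp⟩)).symm
      · rw [fa_eq_zero (hA2 hs'.1) hpA, fa_eq_zero (hA2 hu'.1) hpA]
    · by_cases hpA : p ∈ pr A
      · exact (hB p (mem_sdiff.2 ⟨hpA, hp⟩)).symm
      · rw [fa_eq_zero (hA2 hs'.2) hpA, fa_eq_zero (hA2 hu'.2) hpA]
  have h2 := card_le_card h1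
  rw [card_product] at h2
  have h3 := card_same A A2 hA2 P hm hs'.1
  have h4 := card_same A A2 hA2 P hm hs'.2
  have hm0 : 0 ≤ m := le_trans (Nat.cast_nonneg _) (hm _ hs'.1)
  have h5 : ((cl E (fun u => (mk (pr A \ P) fA u, mk (pr A \ P) fB u)) s).card : ℝ) ≤
      ((A2.filter fun y => ∀ p, p ∉ P → fa s.1 p = fa y p).card : ℝ) *
        ((A2.filter fun y => ∀ p, p ∉ P → fa s.2 p = fa y p).card : ℝ) := by
    exact_mod_cast h2
  exact h5.trans (mul_le_mul h3 h4 (by positivity) (by positivity))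

end Pool.Agent.R483.GC
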