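import Mathlib
import Pool.Agent.R483.GC.Prim

/-!
# Sums or products: the dichotomy
-/

set_option autoImplicit false

namespace Pool.Agent.R483.GC

open Finset Pool.Agent.Y359.PE Filter
open scoped Classical

lemma exists_sign (A1 : Finset ℤ) : ∃ S ⊆ A1, (∀ x ∈ S, ∀ y ∈ A1, (0 < x ↔ 0 < y) → y ∈ S) ∧
    (∀ x ∈ S, ∀ y ∈ S, (0 < x ↔ 0 < y)) ∧ A1.card ≤ 2 * S.card := by
  have h4 : (A1.filter fun y => 0 < y).card + (A1.filter fun y => ¬ 0 < y).card = A1.card :=
    card_filter_add_card_filter_not _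
  by_cases hc : A1.card ≤ 2 * (A1.filter fun y => 0 < y).card
  · refine ⟨_, filter_subset _ _, fun x hx y hy hxy => ?_, fun x hx y hy => ?_, hc⟩
    · exact mem_filter.2 ⟨hy, hxy.1 (mem_filter.1 hx).2⟩
    · exact iff_of_true (mem_filter.1 hx).2 (mem_filter.1 hy).2
  · refine ⟨A1.filter fun y => ¬ 0 < y, filter_subset _ _, fun x hx y hy hxy => ?_,
      fun x hx y hy => ?_, by omega⟩
    · exact mem_filter.2 ⟨hy, fun h => (mem_filter.1 hx).2 (hxy.2 h)⟩
    · exact iff_of_false (mem_filter.1 hx).2 (mem_filter.1 hy).2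

/-- **Sums or products.** -/
theorem withPrimes (ε : ℝ) (hε : 0 < ε) (hε1 : ε ≤ 1) : ∃ θ n0 : ℝ, 0 < θ ∧ ∀ A : Finset ℤ,
    n0 ≤ A.card → (0 : ℤ) ∉ A → ∀ P : Finset ℕ, (∀ p ∈ P, p.Prime) →
    (P.card : ℝ) * Real.log (Real.log A.card) ≤ θ * Real.log A.card →
    (A.card : ℝ) ^ (2 - θ) ≤
      (((A ×ˢ A).filter fun s => (tauP P s : ℝ) ≤ (A.card : ℝ) ^ θ).card : ℝ) →
    (A.card : ℝ) ^ (2 - ε) ≤
      max ((sk 2 A).card : ℝ) (((A ×ˢ A).image fun s => s.1 * s.2).card : ℝ) := by
  obtain ⟨C, hC1, hmain⟩ := mainLogT (ε / 16) (by positivity) (by linarith)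
  set θ := ε / (400 * (1 + C)) with hθ
  have hθ0 : 0 < θ := by positivity
  have hθε : 400 * (1 + C) * θ = ε := by
    rw [hθ]
    field_simp
  have hθ1 : 800 * θ ≤ ε := by nlinarith
  set ε' := ε / 8 with hε'
  have hε'0 : 0 < ε' := by positivity
  have hε'1 : ε' ≤ 1 := by linarith
  set K : ℝ := 4 * ((2 : ℕ) : ℝ) / ε' * Real.exp (6 * ((2 : ℕ) : ℝ) / ε') with hK
  have hK0 : 0 < K := by positivity
  have h1 : ∀ᶠ l : ℝ in atTop, Real.log l ≤ θ * l := by
    have := Real.isLittleO_log_id_atTop.bound hθ0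
    filter_upwards [this, eventually_ge_atTop 1] with l hl hl1
    rw [Real.norm_of_nonneg (Real.log_nonneg hl1), id, Real.norm_of_nonneg (by linarith)] at hl
    exact hl
  obtain ⟨L0, hL0⟩ := eventually_atTop.1 h1
  refine ⟨θ, Real.exp (max (max L0 (2 * K)) (max 3 (8 / θ))), hθ0,
    fun A hn h0 P hP hPc hE => ?_⟩
  have hnpos : (0 : ℝ) < A.card := lt_of_lt_of_le (Real.exp_pos _) hn
  set n : ℝ := (A.card : ℝ) with hnd
  set l := Real.log n with hl
  have hle : max (max L0 (2 * K)) (max 3 (8 / θ)) ≤ l := by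
    rw [hl, Real.le_log_iff_exp_le hnpos]
    exact hn
  have hl1 : L0 ≤ l := ((le_max_left _ _).trans (le_max_left _ _)).trans hle
  have hl2 : 2 * K ≤ l := ((le_max_right _ _).trans (le_max_left _ _)).trans hle
  have hl3 : 3 ≤ l := ((le_max_left _ _).trans (le_max_right _ _)).trans hle
  have hl4 : 8 ≤ θ * l := by
    have := ((le_max_right _ _).trans (le_max_right _ _)).trans hle
    rw [div_le_iff₀ hθ0] at this
    linarith
  have hlogl := hL0 l hl1
  have hlogl1 : 1 ≤ Real.log l := by
    rw [Real.le_log_iff_exp_le (by linarith)]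
    linarith [Real.exp_one_lt_d9]
  have hlog2 : Real.log 2 ≤ 1 := by linarith [Real.log_two_lt_d9]
  have hlog20 : 0 < Real.log 2 := Real.log_pos (by norm_num)
  have hn1 : 1 ≤ n := by
    have := Real.one_le_exp (show 0 ≤ max (max L0 (2 * K)) (max 3 (8 / θ)) from
      (by norm_num : (0 : ℝ) ≤ 3).trans ((le_max_left _ _).trans (le_max_right _ _)))
    linarith
  -- the primes
  set Q := insert 2 P with hQ
  have hQp : ∀ p ∈ Q, p.Prime := by
    intro p hp
    rcases mem_insert.1 hp with rfl | hp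
    · exact Nat.prime_two
    · exact hP p hp
  have hQne : Q.Nonempty := ⟨2, mem_insert_self _ _⟩
  have hQc : (Q.card : ℝ) * Real.log l ≤ 2 * θ * l := by
    have h2 : (Q.card : ℝ) ≤ P.card + 1 := by exact_mod_cast card_insert_le _ _
    have h3 := mul_le_mul_of_nonneg_right h2 (show 0 ≤ Real.log l by linarith)
    linarith
  set M : ℝ := K * (Real.log 2 + l) with hM
  have hM0 : 0 < M := by positivity
  obtain ⟨g1, g2⟩ := num_sum (k := 2) (r := Q.card) (by norm_num) (ℓ := l) (δ := θ) (M := M)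
    (C := K) (by linarith) (by linarith) hlogl1 hK0.le hl2 hM0.le le_rfl hQc
  set m : ℝ := M ^ Q.card with hm
  have hm0 : 0 < m := by positivity
  set A1 := A.filter fun x => m ≤ ((comp A Q x).card : ℝ) with hA1
  set A2 := A.filter fun x => ¬ m ≤ ((comp A Q x).card : ℝ) with hA2
  by_cases hcase : n ^ (1 - 2 * θ) ≤ (A1.card : ℝ)
  · -- many sums
    refine le_trans ?_ (le_max_left _ _)
    obtain ⟨S, hSA, hS1, hS2, hS3⟩ := exists_sign A1
    have hA1pos : (0 : ℝ) < A1.card := lt_of_lt_of_le (by positivity) hcase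
    have hS3' : (A1.card : ℝ) ≤ 2 * S.card := by exact_mod_cast hS3
    have hSpos : (0 : ℝ) < S.card := by linarith
    have hSne : S.Nonempty := card_pos.1 (by exact_mod_cast hSpos)
    have hSA' : S ⊆ A := hSA.trans (filter_subset _ _)
    have hSn : (S.card : ℝ) ≤ n := by
      rw [hnd]
      exact Nat.cast_le.2 (card_le_card hSA')
    have hlogS : Real.log (2 * (S.card : ℝ)) ≤ Real.log 2 + l := by
      rw [Real.log_mul (by norm_num) hSpos.ne']
      have := Real.log_le_log hSpos hSn
      linarith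
    have hlogS0 : 0 ≤ Real.log (2 * (S.card : ℝ)) := by
      refine Real.log_nonneg ?_
      have : (1 : ℝ) ≤ S.card := by exact_mod_cast card_pos.2 hSne
      linarith
    have hMS : 4 * ((2 : ℕ) : ℝ) / ε' * Real.exp (6 * ((2 : ℕ) : ℝ) / ε') *
        Real.log (2 * (S.card : ℝ)) ≤ M := mul_le_mul_of_nonneg_left hlogS hK0.le
    have hMS0 : 0 ≤ 4 * ((2 : ℕ) : ℝ) / ε' * Real.exp (6 * ((2 : ℕ) : ℝ) / ε') *
        Real.log (2 * (S.card : ℝ)) := mul_nonneg hK0.le hlogS0
    have h2 := sums_case 2 (by norm_num) hε'0 hε'1 Q hQp hQne S hSne (fun h => h0 (hSA' h)) hS2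
      _ rfl (fun x hx => by
        have hxA1 := hSA hx
        have h3 := (mem_filter.1 hxA1).2
        refine (pow_le_pow_left₀ hMS0 hMS _).trans (h3.trans ?_)
        have : comp A Q x ⊆ S.filter fun y => ∀ p, p ∉ Q → fa x p = fa y p := by
          intro y hy
          have hy' := mem_filter.1 hy
          refine mem_filter.2 ⟨hS1 x hx y ?_ hy'.2.1, hy'.2.2⟩
          refine mem_filter.2 ⟨hy'.1, ?_⟩
          rw [comp_congr hy]
          exact h3
        exact_mod_cast card_le_card this)
    have h3 : ((S.card : ℝ) ^ 2) ^ (1 - ε') ≤ Real.exp (32 * θ * l) * (sk 2 A).card := by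
      refine h2.trans ?_
      have h4 : ((sk 2 S).card : ℝ) ≤ (sk 2 A).card := by exact_mod_cast card_le_card (sk_mono hSA')
      refine mul_le_mul ?_ h4 (by positivity) (by positivity)
      refine (pow_le_pow_left₀ (by positivity) (b := (Q.card : ℝ) * M + 1) ?_ _).trans ?_
      · have := mul_le_mul_of_nonneg_left hMS (show (0 : ℝ) ≤ Q.card by positivity)
        linarith
      · refine g2.trans (le_of_eq ?_)
        congr 1
        push_cast
        ring
    have hskpos : (0 : ℝ) < (sk 2 A).card := by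
      by_contra hcon
      have : ((sk 2 A).card : ℝ) = 0 := le_antisymm (not_lt.1 hcon) (by positivity)
      rw [this, mul_zero] at h3
      have : 0 < ((S.card : ℝ) ^ 2) ^ (1 - ε') := by positivity
      linarith
    have h5 := Real.log_le_log (by positivity) h3
    rw [Real.log_rpow (by positivity), Real.log_pow, Real.log_mul (Real.exp_pos _).ne' hskpos.ne',
      Real.log_exp] at h5
    push_cast at h5
    have h6 : (1 - 2 * θ) * l - Real.log 2 ≤ Real.log S.card := by
      have h7 : n ^ (1 - 2 * θ) ≤ 2 * S.card := hcase.trans hS3'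
      have h8 := Real.log_le_log (by positivity) h7
      rw [Real.log_rpow hnpos, Real.log_mul (by norm_num) hSpos.ne'] at h8
      linarith
    have h7 : Real.log S.card ≤ l := Real.log_le_log hSpos hSn
    rw [← Real.log_le_log_iff (by positivity) hskpos, Real.log_rpow hnpos, ← hl]
    have h8 : ε' * Real.log S.card ≤ ε' * l := mul_le_mul_of_nonneg_left h7 hε'0.le
    have h9 : 800 * θ * l ≤ ε * l := mul_le_mul_of_nonneg_right hθ1 (by linarith)
    have h10 : ε' * l = ε * l / 8 := by rw [hε']; ring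
    nlinarith
  · -- many products
    refine le_trans ?_ (le_max_right _ _)
    push Not at hcase
    set E := (A ×ˢ A).filter fun s => (tauP P s : ℝ) ≤ n ^ θ with hEd
    set E2 := E.filter fun s => s.1 ∈ A2 ∧ s.2 ∈ A2 with hE2
    have hcover : E ⊆ E2 ∪ (A1 ×ˢ A ∪ A ×ˢ A1) := by
      intro s hs
      have hs' := mem_product.1 (mem_filter.1 hs).1
      rw [mem_union, mem_union, mem_product, mem_product]
      by_cases c1 : s.1 ∈ A1
      · exact Or.inr (Or.inl ⟨c1, hs'.2⟩)
      · by_cases c2 : s.2 ∈ A1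
        · exact Or.inr (Or.inr ⟨hs'.1, c2⟩)
        · left
          refine mem_filter.2 ⟨hs, mem_filter.2 ⟨hs'.1, fun h => c1 (mem_filter.2 ⟨hs'.1, h⟩)⟩,
            mem_filter.2 ⟨hs'.2, fun h => c2 (mem_filter.2 ⟨hs'.2, h⟩)⟩⟩
    have hcc : (E.card : ℝ) ≤ E2.card + (A1.card * n + n * A1.card) := by
      have h2 := (card_le_card hcover).trans ((card_union_le _ _).trans
        (Nat.add_le_add_left (card_union_le _ _) _))
      rw [card_product, card_product] at h2
      rw [hnd]
      exact_mod_cast h2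
    have hnθ : 4 ≤ n ^ θ := by
      have h2 : n ^ θ = Real.exp (θ * l) := by
        rw [Real.rpow_def_of_pos hnpos, mul_comm]
      rw [h2]
      linarith [Real.add_one_le_exp (θ * l)]
    have hE2c : n ^ (2 - θ) / 2 ≤ (E2.card : ℝ) := by
      have h2 : (A1.card : ℝ) * n ≤ n ^ (2 - 2 * θ) := by
        calc (A1.card : ℝ) * n ≤ n ^ (1 - 2 * θ) * n :=
              mul_le_mul_of_nonneg_right hcase.le hnpos.le
          _ = n ^ (2 - 2 * θ) := by
              rw [← Real.rpow_add_one hnpos.ne']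
              congr 1
              ring
      have h3 : 4 * n ^ (2 - 2 * θ) ≤ n ^ (2 - θ) := by
        calc 4 * n ^ (2 - 2 * θ) ≤ n ^ θ * n ^ (2 - 2 * θ) :=
              mul_le_mul_of_nonneg_right hnθ (by positivity)
          _ = n ^ (2 - θ) := by
              rw [← Real.rpow_add hnpos]
              congr 1
              ring
      linarith
    have hE2pos : (0 : ℝ) < E2.card := lt_of_lt_of_le (by positivity) hE2c
    have hE2ne : E2.Nonempty := card_pos.1 (by exact_mod_cast hE2pos)
    have hE2A2 : E2 ⊆ A2 ×ˢ A2 := by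
      intro s hs
      exact mem_product.2 (mem_filter.1 hs).2
    have hE2A : E2 ⊆ A ×ˢ A := (filter_subset _ _).trans (filter_subset _ _)
    have hcomp : ∀ x ∈ A2, ((comp A Q x).card : ℝ) ≤ m := fun x hx =>
      (not_le.1 (mem_filter.1 hx).2).le
    have h2 := hmain A A h0 h0 E2 hE2A hE2ne (pr A \ Q) ((2 * m) * (2 * m)) (fun s hs =>
      fc_le_comp A A2 (filter_subset _ _) Q hcomp E2 hE2A2 hs)
    have havg : (∑ s ∈ E2, ∑ p ∈ pr A \ Q, Real.log (1 + min (fA s p) (fB s p) : ℕ)) / E2.card ≤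
        θ * l := by
      rw [div_le_iff₀ hE2pos]
      calc ∑ s ∈ E2, ∑ p ∈ pr A \ Q, Real.log (1 + min (fA s p) (fB s p) : ℕ)
          ≤ ∑ _s ∈ E2, θ * l := by
            refine sum_le_sum fun s hs => ?_
            have hs' := mem_product.1 (hE2A hs)
            have h3 := log_tauP (s := s) (fun h => h0 (h ▸ hs'.1)) (fun h => h0 (h ▸ hs'.2)) P
              (pr A \ Q) hP (fun p hp => prime_of_mem_pr (mem_sdiff.1 hp).1)
              (fun p hp hpP => (mem_sdiff.1 hp).2 (mem_insert_of_mem hpP))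
            refine h3.trans ?_
            have h4 : (tauP P s : ℝ) ≤ n ^ θ := (mem_filter.1 (mem_filter.1 hs).1).2
            rcases Nat.eq_zero_or_pos (tauP P s) with h5 | h5
            · rw [h5]
              simp only [Nat.cast_zero, Real.log_zero]
              positivity
            · have h6 := Real.log_le_log (show (0 : ℝ) < tauP P s by exact_mod_cast h5) h4
              rwa [Real.log_rpow hnpos] at h6
        _ = θ * l * E2.card := by
            rw [sum_const, nsmul_eq_mul]
            ring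
    have hlogE2 : (2 - θ) * l - Real.log 2 ≤ Real.log E2.card := by
      have h3 := Real.log_le_log (by positivity) hE2c
      rwa [Real.log_div (by positivity) (by norm_num), Real.log_rpow hnpos] at h3
    have hlogF : Real.log ((2 * m) * (2 * m)) ≤ 2 * Real.log 2 + 8 * θ * l := by
      rw [Real.log_mul (by positivity) (by positivity), Real.log_mul (by norm_num) hm0.ne']
      have h3 : Real.log m ≤ 4 * θ * l := by
        have := Real.log_le_log hm0 g1
        rwa [Real.log_exp] at this
      linarith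
    have hMpos : (0 : ℝ) < ((E2.image fun s => s.1 * s.2).card : ℝ) := by
      exact_mod_cast card_pos.2 (hE2ne.image _)
    have hMle : ((E2.image fun s => s.1 * s.2).card : ℝ) ≤
        ((A ×ˢ A).image fun s => s.1 * s.2).card := by
      exact_mod_cast card_le_card (image_subset_image hE2A)
    refine le_trans ?_ hMle
    rw [← Real.log_le_log_iff (by positivity) hMpos, Real.log_rpow hnpos, ← hl]
    have h3 : C * ((∑ s ∈ E2, ∑ p ∈ pr A \ Q, Real.log (1 + min (fA s p) (fB s p) : ℕ)) /
        E2.card) ≤ C * (θ * l) := mul_le_mul_of_nonneg_left havg (by linarith)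
    have h4 : (1 + C) * ((2 - θ) * l - Real.log 2 - (2 * Real.log 2 + 8 * θ * l)) ≤
        (1 + C) * (Real.log E2.card - Real.log ((2 * m) * (2 * m))) :=
      mul_le_mul_of_nonneg_left (by linarith) (by linarith)
    have h5 : (1 + C) * (3 * Real.log 2) ≤ (1 + C) * 3 :=
      mul_le_mul_of_nonneg_left (by linarith) (by linarith)
    have h6 : (1 + C) * 8 ≤ (1 + C) * (θ * l) := mul_le_mul_of_nonneg_left hl4 (by linarith)
    have h7 : 400 * (1 + C) * θ * l = ε * l := by rw [hθε]
    have h8 : 0 ≤ ε * l := by positivity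
    have h9 : C * (θ * l) ≤ (1 + C) * (θ * l) := mul_le_mul_of_nonneg_right (by linarith) (by linarith)
    generalize Real.log (((E2.image fun s => s.1 * s.2).card : ℕ) : ℝ) = z at h2 ⊢
    generalize Real.log ((2 * m) * (2 * m)) = F at h2 h4 hlogF
    generalize Real.log (E2.card : ℝ) = e at h2 h4 hlogE2
    generalize (∑ s ∈ E2, ∑ p ∈ pr A \ Q, Real.log (1 + min (fA s p) (fB s p) : ℕ)) /
        (E2.card : ℝ) = w at h2 h3 havg
    have e1 : Real.log (A.card : ℝ) = l := rfl
    rw [e1] at h2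
    nlinarith

end Pool.Agent.R483.GC
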