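import Mathlib
import Pool.Agent.R483.GC.Pairs

/-!
# Few products and the size of the greatest common divisors

The divisor bound is the one of the starting file `S16173` (copied to avoid the import).
-/

set_option autoImplicit false

namespace Pool.Agent.R483.GC

open Finset Pool.Agent.Y359.PE Filter
open scoped Classical

/-- A divisor bound with a free threshold `s`. -/
lemma divisor_bound (n s : ℕ) (hn : n ≠ 0) (hs : 2 ≤ s) :
    (n.divisors.card : ℝ) ≤
      Real.exp (Real.log 2 / Real.log s * Real.log n) * ((Nat.log 2 n : ℝ) + 1) ^ s := by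
  rw [Nat.card_divisors hn]
  push_cast
  have hs0 : (1 : ℝ) < s := by exact_mod_cast (by omega : 1 < s)
  have hls : 0 < Real.log s := Real.log_pos hs0
  have hl2 : 0 < Real.log 2 := Real.log_pos (by norm_num)
  set a : ℝ := Real.log 2 / Real.log s with ha
  have ha0 : 0 < a := div_pos hl2 hls
  set B : ℝ := (Nat.log 2 n : ℝ) + 1 with hB
  have hB1 : 1 ≤ B := by
    have : (0 : ℝ) ≤ (Nat.log 2 n : ℝ) := Nat.cast_nonneg _
    linarith
  have hstep : ∏ p ∈ n.primeFactors, ((n.factorization p : ℝ) + 1) ≤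
      ∏ p ∈ n.primeFactors, (Real.exp (a * ((n.factorization p : ℝ) * Real.log p)) *
        (if p ≤ s then B else 1)) := by
    apply Finset.prod_le_prod
    · intro p _; positivity
    · intro p hp
      have hpp := Nat.prime_of_mem_primeFactors hp
      have hp1 : (1 : ℝ) < p := by exact_mod_cast hpp.one_lt
      have hlp : 0 < Real.log p := Real.log_pos hp1
      have hv0 : (0 : ℝ) ≤ (n.factorization p : ℝ) := Nat.cast_nonneg _
      by_cases hps : p ≤ s
      · rw [if_pos hps]
        have h1 : 1 ≤ Real.exp (a * ((n.factorization p : ℝ) * Real.log p)) := by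
          apply Real.one_le_exp
          positivity
        have h2 : n.factorization p ≤ Nat.log 2 n := by
          apply Nat.le_log_of_pow_le (by norm_num)
          calc 2 ^ n.factorization p ≤ p ^ n.factorization p :=
                Nat.pow_le_pow_left hpp.two_le _
            _ ≤ n := Nat.ordProj_le p hn
        have h3 : (n.factorization p : ℝ) + 1 ≤ B := by
          rw [hB]
          have : (n.factorization p : ℝ) ≤ (Nat.log 2 n : ℝ) := by exact_mod_cast h2
          linarith
        calc (n.factorization p : ℝ) + 1 ≤ B := h3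
          _ = 1 * B := by ring
          _ ≤ _ := mul_le_mul_of_nonneg_right h1 (by linarith)
      · rw [if_neg hps, mul_one]
        have h1 : (n.factorization p : ℝ) + 1 ≤ 2 ^ (n.factorization p) := by
          exact_mod_cast Nat.succ_le_of_lt (Nat.lt_two_pow_self)
        have h2 : (2 : ℝ) ^ (n.factorization p) =
            Real.exp (Real.log 2 * (n.factorization p : ℝ)) := by
          rw [mul_comm, Real.exp_nat_mul, Real.exp_log (by norm_num)]
        rw [h2] at h1
        refine le_trans h1 ?_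
        apply Real.exp_le_exp.mpr
        have h3 : Real.log s ≤ Real.log p := by
          apply Real.log_le_log (by linarith)
          exact_mod_cast (by omega : s ≤ p)
        have h4 : Real.log 2 = a * Real.log s := by rw [ha]; field_simp
        calc Real.log 2 * (n.factorization p : ℝ)
            = a * ((n.factorization p : ℝ) * Real.log s) := by rw [h4]; ring
          _ ≤ a * ((n.factorization p : ℝ) * Real.log p) := by
              apply mul_le_mul_of_nonneg_left _ ha0.le
              exact mul_le_mul_of_nonneg_left h3 hv0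
  refine le_trans hstep ?_
  rw [Finset.prod_mul_distrib]
  apply mul_le_mul
  · rw [← Real.exp_sum, ← Finset.mul_sum]
    apply Real.exp_le_exp.mpr
    apply le_of_eq
    rw [Real.log_nat_eq_sum_factorization n]
    rfl
  · rw [Finset.prod_ite, Finset.prod_const_one, mul_one, Finset.prod_const]
    apply pow_le_pow_right₀ hB1
    calc (n.primeFactors.filter (fun p => p ≤ s)).card ≤ (Finset.Icc 1 s).card := by
          apply Finset.card_le_card
          intro p hp
          obtain ⟨h1, h2⟩ := Finset.mem_filter.mp hp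
          exact Finset.mem_Icc.mpr ⟨(Nat.prime_of_mem_primeFactors h1).pos, h2⟩
      _ = s := by simp
  · apply Finset.prod_nonneg
    intro p _
    split_ifs <;> linarith
  · positivity

/-- a number with `x ^ θ` divisors is larger than `x ^ (θ' log log x)` -/
lemma wig (θ : ℝ) (hθ : 0 < θ) (hθ1 : θ ≤ 1) : ∃ x0 : ℝ, 1 < x0 ∧ ∀ x : ℝ, x0 ≤ x →
    0 ≤ Real.log (Real.log x) ∧ ∀ g : ℕ, g ≠ 0 →
      (g : ℝ) ≤ x ^ (θ / 4 * Real.log (Real.log x)) → (g.divisors.card : ℝ) < x ^ θ := by
  -- asymptotics in `l = log x`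
  have h1 : ∀ᶠ l : ℝ in atTop, Real.log l ≤ θ / 24 * l ^ (1 / 4 : ℝ) := by
    have := (isLittleO_log_rpow_atTop (r := 1 / 4) (by norm_num)).bound
      (show 0 < θ / 24 by positivity)
    filter_upwards [this, eventually_ge_atTop 1] with l hl hl1
    rw [Real.norm_of_nonneg (Real.log_nonneg hl1), Real.norm_of_nonneg (by positivity)] at hl
    exact hl
  obtain ⟨l0, hl0⟩ := eventually_atTop.1 h1
  refine ⟨Real.exp (max l0 100), Real.one_lt_exp_iff.2 (by positivity), fun x hx => ?_⟩
  have hx0 : 0 < x := lt_of_lt_of_le (Real.exp_pos _) hx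
  set l := Real.log x with hl
  have hle : max l0 100 ≤ l := by
    rw [hl, Real.le_log_iff_exp_le hx0]
    exact hx
  have hl100 : 100 ≤ l := (le_max_right _ _).trans hle
  have hll := hl0 l ((le_max_left _ _).trans hle)
  have hll1 : 1 ≤ Real.log l := by
    rw [Real.le_log_iff_exp_le (by linarith)]
    linarith [Real.exp_one_lt_d9]
  refine ⟨by linarith, fun g hg hgx => ?_⟩
  have hg0 : (0 : ℝ) < g := by exact_mod_cast Nat.pos_of_ne_zero hg
  -- the threshold
  set s := ⌈Real.sqrt l⌉₊ with hs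
  have hsq10 : 10 ≤ Real.sqrt l := by
    rw [show (10 : ℝ) = Real.sqrt 100 by
      rw [show (100 : ℝ) = 10 ^ 2 by norm_num, Real.sqrt_sq (by norm_num)]]
    exact Real.sqrt_le_sqrt hl100
  have hs1 : Real.sqrt l ≤ s := Nat.le_ceil _
  have hs2 : (s : ℝ) ≤ Real.sqrt l + 1 := (Nat.ceil_lt_add_one (Real.sqrt_nonneg _)).le
  have hs3 : 2 ≤ s := by
    have : (2 : ℝ) ≤ s := by linarith
    exact_mod_cast this
  have hd := divisor_bound g s hg hs3
  have hlogg : Real.log g ≤ θ / 4 * Real.log l * l := by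
    have h2 := Real.log_le_log hg0 hgx
    rwa [Real.log_rpow hx0] at h2
  have hlogs : Real.log l / 2 ≤ Real.log s := by
    rw [← Real.log_sqrt (by linarith)]
    exact Real.log_le_log (by linarith) hs1
  have hA : Real.log 2 / Real.log s * Real.log g ≤ θ / 2 * l := by
    have h2 : Real.log 2 / Real.log s ≤ 1 / (Real.log l / 2) := by
      apply div_le_div₀ (by norm_num) (by linarith [Real.log_two_lt_d9]) (by linarith) hlogs
    have h3 : 0 ≤ Real.log 2 / Real.log s := div_nonneg (Real.log_nonneg (by norm_num)) (by linarith)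
    rcases le_or_gt (Real.log g) 0 with h4 | h4
    · have : Real.log 2 / Real.log s * Real.log g ≤ 0 := mul_nonpos_of_nonneg_of_nonpos h3 h4
      have : 0 ≤ θ / 2 * l := by positivity
      linarith
    · calc Real.log 2 / Real.log s * Real.log g ≤ 1 / (Real.log l / 2) * (θ / 4 * Real.log l * l) :=
            mul_le_mul h2 hlogg h4.le (by positivity)
        _ = θ / 2 * l := by
            have : Real.log l ≠ 0 := by linarith
            field_simp
            ring
  -- the second factor
  have hB : (Nat.log 2 g : ℝ) + 1 ≤ l ^ 3 := by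
    have h2 : (2 : ℝ) ^ (Nat.log 2 g) ≤ g := by exact_mod_cast Nat.pow_log_le_self 2 hg
    have h3 : (Nat.log 2 g : ℝ) * Real.log 2 ≤ Real.log g := by
      rw [← Real.log_pow]
      exact Real.log_le_log (by positivity) h2
    have h4 : (Nat.log 2 g : ℝ) ≤ 2 * Real.log g := by
      have h5 := Real.log_two_gt_d9
      have h6 : (0 : ℝ) ≤ (Nat.log 2 g : ℝ) := Nat.cast_nonneg _
      nlinarith
    have h5 : Real.log l ≤ l := (Real.log_le_sub_one_of_pos (by linarith)).trans (by linarith)
    have h6 : θ / 4 * Real.log l * l ≤ 1 / 4 * l * l := by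
      have : θ / 4 * Real.log l ≤ 1 / 4 * l :=
        mul_le_mul (by linarith) h5 (by linarith) (by norm_num)
      exact mul_le_mul_of_nonneg_right this (by linarith)
    nlinarith [sq_nonneg l]
  have hB0 : (0 : ℝ) < (Nat.log 2 g : ℝ) + 1 := by positivity
  have hC : (s : ℝ) * Real.log ((Nat.log 2 g : ℝ) + 1) < θ / 2 * l := by
    have h2 : Real.log ((Nat.log 2 g : ℝ) + 1) ≤ 3 * Real.log l := by
      have := Real.log_le_log hB0 hB
      rw [Real.log_pow] at this
      push_cast at this
      exact this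
    have h3 : (s : ℝ) ≤ 2 * Real.sqrt l := by linarith
    have h4 : 0 ≤ Real.log ((Nat.log 2 g : ℝ) + 1) := Real.log_nonneg (by
      have : (0 : ℝ) ≤ (Nat.log 2 g : ℝ) := Nat.cast_nonneg _
      linarith)
    calc (s : ℝ) * Real.log ((Nat.log 2 g : ℝ) + 1) ≤ 2 * Real.sqrt l * (3 * Real.log l) :=
          mul_le_mul h3 h2 h4 (by positivity)
      _ ≤ 2 * Real.sqrt l * (3 * (θ / 24 * l ^ (1 / 4 : ℝ))) := by
          refine mul_le_mul_of_nonneg_left ?_ (by positivity)
          linarith
      _ = θ / 4 * (Real.sqrt l * l ^ (1 / 4 : ℝ)) := by ring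
      _ ≤ θ / 4 * l := by
          refine mul_le_mul_of_nonneg_left ?_ (by positivity)
          rw [Real.sqrt_eq_rpow, ← Real.rpow_add (by linarith)]
          calc l ^ (1 / 2 + 1 / 4 : ℝ) ≤ l ^ (1 : ℝ) :=
                Real.rpow_le_rpow_of_exponent_le (by linarith) (by norm_num)
            _ = l := Real.rpow_one l
      _ < θ / 2 * l := by nlinarith
  refine lt_of_le_of_lt hd ?_
  have e1 : ((Nat.log 2 g : ℝ) + 1) ^ s = Real.exp (s * Real.log ((Nat.log 2 g : ℝ) + 1)) := by
    rw [Real.exp_nat_mul, Real.exp_log hB0]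
  rw [e1, ← Real.exp_add, Real.rpow_def_of_pos hx0, Real.exp_lt_exp, ← hl]
  linarith

/-- **Few products: almost all pairs have a huge greatest common divisor.** -/
theorem fewProductsGcd (δ : ℝ) (hδ : 0 < δ) : ∃ θ n0 : ℝ, 0 < θ ∧
    ∀ X Y : Finset ℤ, X.Nonempty → Y.Nonempty → (0 : ℤ) ∉ X → (0 : ℤ) ∉ Y →
      n0 ≤ (X.card : ℝ) * Y.card →
      (((X ×ˢ Y).image fun s => s.1 * s.2).card : ℝ) ≤ ((X.card : ℝ) * Y.card) ^ (1 - δ) →
      (((X ×ˢ Y).filter fun s => (Int.gcd s.1 s.2 : ℝ) ≤ ((X.card : ℝ) * Y.card) ^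
        (θ * Real.log (Real.log ((X.card : ℝ) * Y.card)))).card : ℝ) ≤
        ((X.card : ℝ) * Y.card) ^ (1 - θ) := by
  obtain ⟨θ', hθ', h⟩ := fewProducts δ hδ
  set θ := min θ' 1 with hθ
  have hθ0 : 0 < θ := by positivity
  have hθ1 : θ ≤ 1 := min_le_right _ _
  obtain ⟨x0, hx0, hw⟩ := wig θ hθ0 hθ1
  refine ⟨θ / 4, max x0 (4 ^ (4 / (3 * θ))), by positivity, fun X Y hXne hYne hX hY hn hfew => ?_⟩
  have h1 := h X Y hXne hYne hX hY hfew
  set n : ℝ := (X.card : ℝ) * Y.card with hnd
  have hnx : x0 ≤ n := (le_max_left _ _).trans hn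
  have hn4 : 4 ^ (4 / (3 * θ)) ≤ n := (le_max_right _ _).trans hn
  have hn1 : 1 < n := by linarith
  have hn0 : 0 < n := by linarith
  obtain ⟨hll, hw⟩ := hw n hnx
  have h2 : ((X ×ˢ Y).filter fun s => (Int.gcd s.1 s.2 : ℝ) ≤ n ^ (θ / 4 * Real.log (Real.log n)))
      ⊆ (X ×ˢ Y).filter fun s => (tau s : ℝ) < n ^ θ' := by
    intro s hs
    rw [mem_filter] at hs ⊢
    refine ⟨hs.1, ?_⟩
    have hs1 : s.1 ≠ 0 := fun h0 => hX (h0 ▸ (mem_product.1 hs.1).1)
    have hg : Int.gcd s.1 s.2 ≠ 0 := fun h0 => hs1 (Int.gcd_eq_zero_iff.1 h0).1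
    have h3 := hw (Int.gcd s.1 s.2) hg hs.2
    unfold tau
    refine lt_of_lt_of_le h3 ?_
    exact Real.rpow_le_rpow_of_exponent_le hn1.le (min_le_left _ _)
  have h3 : (((X ×ˢ Y).filter fun s => (Int.gcd s.1 s.2 : ℝ) ≤
      n ^ (θ / 4 * Real.log (Real.log n))).card : ℝ) ≤ 4 * n ^ (1 - θ') :=
    le_trans (by exact_mod_cast card_le_card h2) h1
  refine h3.trans ?_
  have h4 : (4 : ℝ) ≤ n ^ (3 * θ / 4) := by
    have h5 := Real.rpow_le_rpow (by positivity) hn4 (show 0 ≤ 3 * θ / 4 by positivity)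
    rw [← Real.rpow_mul (by norm_num)] at h5
    have e : 4 / (3 * θ) * (3 * θ / 4) = 1 := by field_simp
    rwa [e, Real.rpow_one] at h5
  calc 4 * n ^ (1 - θ') ≤ n ^ (3 * θ / 4) * n ^ (1 - θ') :=
        mul_le_mul_of_nonneg_right h4 (by positivity)
    _ = n ^ (3 * θ / 4 + (1 - θ')) := by rw [← Real.rpow_add hn0]
    _ ≤ n ^ (1 - θ / 4) := by
        refine Real.rpow_le_rpow_of_exponent_le hn1.le ?_
        have : θ ≤ θ' := min_le_left _ _
        linarith

end Pool.Agent.R483.GC
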